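import Pool.Agent.Helper202_WS.Defs

/-!
Weak soficity with the commutator inequality.
-/

namespace Pool.Agent.Helper202WS

universe u

/-- The commutator inequality with constants `f`: if `a` and `b` lie in the subgroup generated by
a finite set `S`, then `d(ab, ba) ≤ f(|S|) ∑_{s ∈ S} d(s, 1)`. -/
def CommutatorBounded (f : ℕ → ℝ) {H : Type} [Group H] (d : H → H → ℝ) : Prop :=
  ∀ (S : Finset H), ∀ a ∈ Subgroup.closure (S : Set H), ∀ b ∈ Subgroup.closure (S : Set H),
    d (a * b) (b * a) ≤ f S.card * ∑ s ∈ S, d s 1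

/-- Weakly sofic groups for which the metrics can be chosen to satisfy the commutator inequality
with constants `f` not depending on the finite group. -/
def CommutatorWeaklySofic (G : Type u) [Group G] : Prop :=
  ∃ f : ℕ → ℝ, ∀ (F : Finset G) (ε : ℝ), 0 < ε →
    ∃ (H : Type) (_ : Group H) (_ : Finite H) (d : H → H → ℝ) (φ : G → H),
      IsBiInvMetric d ∧ CommutatorBounded f d ∧
      (∀ g ∈ F, ∀ h ∈ F, g * h ∈ F → d (φ (g * h)) (φ g * φ h) ≤ ε) ∧
      ∀ g ∈ F, g ≠ 1 → 1 ≤ d (φ g) 1

end Pool.Agent.Helper202WS
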