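import Pool.Agent.Helper202_WS.Derived
import Pool.Agent.Helper202_WS.CDefs

/-!
The commutator inequality suffices.
-/

set_option linter.unusedSectionVars false

open Filter Subgroup

namespace Pool.Agent.Helper202WS

universe u v w

namespace IsBiInvMetric

variable {H : Type} [Group H] {d : H → H → ℝ} (hd : IsBiInvMetric d)
include hd

theorem sum_image_le [DecidableEq H] {τ : Type*} (T : Finset τ) (e : τ → H) :
    ∑ s ∈ T.image e, d s 1 ≤ ∑ t ∈ T, d (e t) 1 := by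
  have h2 : ∑ t ∈ T, d (e t) 1 = ∑ s ∈ T.image e, ∑ t ∈ T.filter (fun t => e t = s), d (e t) 1 :=
    (Finset.sum_fiberwise_of_maps_to (fun t ht => Finset.mem_image_of_mem e ht) _).symm
  rw [h2]
  apply Finset.sum_le_sum
  intro s hs'
  obtain ⟨t, ht, rfl⟩ := Finset.mem_image.1 hs'
  exact Finset.single_le_sum (f := fun t => d (e t) 1) (fun a _ => hd.nonneg _ _)
    (Finset.mem_filter.2 ⟨ht, rfl⟩)

theorem comm_family {f : ℕ → ℝ} (hc : CommutatorBounded f d) {τ : Type*} (T : Finset τ)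
    (e : τ → H) (a b : H) (ha : a ∈ Subgroup.closure (e '' (T : Set τ)))
    (hb : b ∈ Subgroup.closure (e '' (T : Set τ))) :
    d (a * b) (b * a) ≤ (∑ k ∈ Finset.range (T.card + 1), |f k|) * ∑ t ∈ T, d (e t) 1 := by
  classical
  have h1 := hc (T.image e) a (by rwa [Finset.coe_image]) b (by rwa [Finset.coe_image])
  have h2 := hd.sum_image_le T e
  have h3 : f (T.image e).card ≤ ∑ k ∈ Finset.range (T.card + 1), |f k| := by
    refine (le_abs_self _).trans ?_
    exact Finset.single_le_sum (f := fun k => |f k|) (fun k _ => abs_nonneg _)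
      (Finset.mem_range.2 (Nat.lt_succ_of_le Finset.card_image_le))
  have h4 : 0 ≤ ∑ s ∈ T.image e, d s 1 := Finset.sum_nonneg (fun s _ => hd.nonneg _ _)
  have h5 : 0 ≤ ∑ k ∈ Finset.range (T.card + 1), |f k| :=
    Finset.sum_nonneg (fun k _ => abs_nonneg _)
  calc d (a * b) (b * a) ≤ f (T.image e).card * ∑ s ∈ T.image e, d s 1 := h1
    _ ≤ (∑ k ∈ Finset.range (T.card + 1), |f k|) * ∑ s ∈ T.image e, d s 1 :=
        mul_le_mul_of_nonneg_right h3 h4
    _ ≤ _ := mul_le_mul_of_nonneg_left h2 h5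

end IsBiInvMetric

/-- The closure of a normal subgroup under generation. -/
def cl {I : Type u} {H : I → Type} [∀ i, Group (H i)] (𝓤 : Ultrafilter I)
    (M : Subgroup (∀ i, H i)) : Subgroup (∀ i, H i) where
  carrier := {x | ∃ T : Set (∀ i, H i), T.Finite ∧ T ⊆ M ∧ ∀ᶠ i in (𝓤 : Filter I), x i ∈ gen T i}
  one_mem' := ⟨∅, Set.finite_empty, Set.empty_subset _,
    Filter.Eventually.of_forall (fun i => one_mem _)⟩
  mul_mem' := by
    rintro x y ⟨T, h1, h2, h3⟩ ⟨T', h1', h2', h3'⟩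
    refine ⟨T ∪ T', h1.union h1', Set.union_subset h2 h2', ?_⟩
    filter_upwards [h3, h3'] with i hi hi'
    exact mul_mem (gen_mono Set.subset_union_left i hi) (gen_mono Set.subset_union_right i hi')
  inv_mem' := by
    rintro x ⟨T, h1, h2, h3⟩
    refine ⟨T, h1, h2, ?_⟩
    filter_upwards [h3] with i hi
    exact inv_mem hi

section

variable {I : Type u} {H : I → Type} [∀ i, Group (H i)] (𝓤 : Ultrafilter I)
  (M : Subgroup (∀ i, H i))

theorem le_cl : M ≤ cl 𝓤 M := fun x hx => ⟨{x}, Set.finite_singleton x, by simpa using hx,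
  Filter.Eventually.of_forall (fun i => mem_gen (Set.mem_singleton x) i)⟩

theorem cl_normal (hN : M.Normal) : (cl 𝓤 M).Normal := by
  constructor
  rintro x ⟨T, h1, h2, h3⟩ w
  refine ⟨_, h1.image (fun t => w * t * w⁻¹), ?_, ?_⟩
  · rintro _ ⟨t, ht, rfl⟩
    exact hN.conj_mem _ (h2 ht) _
  · filter_upwards [h3] with i hi
    have h4 : (MulAut.conj (w i)).toMonoidHom (x i) ∈
        (gen T i).map (MulAut.conj (w i)).toMonoidHom := Subgroup.mem_map_of_mem _ hi
    unfold gen at h4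
    rw [MonoidHom.map_closure] at h4
    have h6 := Subgroup.closure_mono (k := (fun t : ∀ i, H i => t i) ''
      ((fun t => w * t * w⁻¹) '' T)) (by
        rintro _ ⟨_, ⟨t, ht, rfl⟩, rfl⟩
        exact ⟨_, ⟨t, ht, rfl⟩, by simp [MulAut.conj_apply]⟩) h4
    simpa [MulAut.conj_apply, gen] using h6

theorem cl_closed : GenClosed 𝓤 (cl 𝓤 M) := by
  intro S hS hSM x hx
  have hch : ∀ s, s ∈ S → ∃ T : Set (∀ i, H i), T.Finite ∧ T ⊆ M ∧
    ∀ᶠ i in (𝓤 : Filter I), s i ∈ gen T i := fun s hs => hSM hs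
  choose! T h1 h2 h3 using hch
  refine ⟨⋃ s ∈ S, T s, hS.biUnion h1, Set.iUnion₂_subset h2, ?_⟩
  have h6 : ∀ᶠ i in (𝓤 : Filter I), ∀ s ∈ S, s i ∈ gen (T s) i :=
    (Filter.eventually_all_finite hS).2 h3
  filter_upwards [hx, h6] with i hi1 hi2
  have h7 : gen S i ≤ gen (⋃ s ∈ S, T s) i := by
    rw [gen, Subgroup.closure_le]
    rintro _ ⟨s, hs, rfl⟩
    exact gen_mono (Set.subset_biUnion_of_mem hs) i (hi2 s hs)
  exact h7 hi1

end

/-- Abstract form: commutators of elements of the closure are in `M`. -/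
theorem sws_of_comm {G : Type u} [Group G] {I : Type u} {H : I → Type} [∀ i, Group (H i)]
    (hfin : ∀ i, Finite (H i)) (𝓤 : Ultrafilter I) (M : Subgroup (∀ i, H i)) (hN : M.Normal)
    (hcomm : ∀ x ∈ cl 𝓤 M, ∀ y ∈ cl 𝓤 M, x * y * (y * x)⁻¹ ∈ M)
    (p : G → ∀ i, H i) (hp : ∀ g h, p g * p h * (p (g * h))⁻¹ ∈ M)
    (hp1 : ∀ g, g ≠ 1 → p g ∉ M) : SubgroupWeaklySofic G := by
  classical
  apply of_rad
  apply comm_rad
  have hN' : (cl 𝓤 M).Normal := cl_normal 𝓤 M hN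
  have hK : SubgroupWeaklySofic ((∀ i, H i) ⧸ cl 𝓤 M) := by
    refine of_ultra 𝓤 hfin (cl 𝓤 M) hN' (cl_closed 𝓤 M) Quotient.out ?_ ?_
    · intro x y
      rw [← QuotientGroup.eq_one_iff (N := cl 𝓤 M)]
      simp only [QuotientGroup.mk_mul, QuotientGroup.mk_inv, QuotientGroup.out_eq']
      exact mul_inv_cancel _
    · intro x hx hmem
      apply hx
      rw [← QuotientGroup.eq_one_iff (N := cl 𝓤 M), QuotientGroup.out_eq'] at hmem
      exact hmem
  let φc : G →* (∀ i, H i) ⧸ cl 𝓤 M := MonoidHom.mk' (fun g => ((p g : ∀ i, H i) :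
    (∀ i, H i) ⧸ cl 𝓤 M)) (by
      intro g h
      have h1 := (QuotientGroup.eq_one_iff (N := cl 𝓤 M) _).2 (le_cl 𝓤 M (hp g h))
      rw [QuotientGroup.mk_mul, QuotientGroup.mk_mul, QuotientGroup.mk_inv, mul_inv_eq_one] at h1
      exact h1.symm)
  let φ : G →* (∀ i, H i) ⧸ M := MonoidHom.mk' (fun g => ((p g : ∀ i, H i) :
    (∀ i, H i) ⧸ M)) (by
      intro g h
      have h1 := (QuotientGroup.eq_one_iff (N := M) _).2 (hp g h)
      rw [QuotientGroup.mk_mul, QuotientGroup.mk_mul, QuotientGroup.mk_inv, mul_inv_eq_one] at h1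
      exact h1.symm)
  have hinj : ∀ g, φ g = 1 → g = 1 := by
    intro g hg
    by_contra h
    exact hp1 g h ((QuotientGroup.eq_one_iff (N := M) _).1 hg)
  intro a ha b hb
  have ha' : p a ∈ cl 𝓤 M := (QuotientGroup.eq_one_iff (N := cl 𝓤 M) _).1 (mem_rad ha hK φc)
  have hb' : p b ∈ cl 𝓤 M := (QuotientGroup.eq_one_iff (N := cl 𝓤 M) _).1 (mem_rad hb hK φc)
  have h1 := (QuotientGroup.eq_one_iff (N := M) _).2 (hcomm _ ha' _ hb')
  rw [← mul_inv_eq_one]
  apply hinj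
  rw [map_mul, map_inv, map_mul, map_mul]
  rw [QuotientGroup.mk_mul, QuotientGroup.mk_inv, QuotientGroup.mk_mul, QuotientGroup.mk_mul] at h1
  exact h1

theorem arith_aux (C c ε : ℝ) (hC : 0 ≤ C) (hc : 0 ≤ c) (hε : 0 < ε) :
    C * (c * (ε / ((C + 1) * (c + 1)))) < ε := by
  have e : C * (c * (ε / ((C + 1) * (c + 1)))) = (C * c * ε) / ((C + 1) * (c + 1)) := by
    rw [← mul_div_assoc, ← mul_div_assoc, mul_assoc]
  rw [e, div_lt_iff₀ (by positivity)]
  nlinarith [mul_nonneg hC hc, mul_nonneg hC hε.le, mul_nonneg hc hε.le]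

/-- The commutator inequality suffices for the subgroup inequality. -/
theorem CommutatorWeaklySofic.sws {Q : Type u} [Group Q] (hQ : CommutatorWeaklySofic Q) :
    SubgroupWeaklySofic Q := by
  classical
  obtain ⟨f, hQ⟩ := hQ
  let I : Type u := Finset Q × ℕ
  have hch : ∀ i : I, ∃ (H : Type) (_ : Group H) (_ : Finite H) (d : H → H → ℝ) (φ : Q → H),
      IsBiInvMetric d ∧ CommutatorBounded f d ∧
      (∀ g ∈ i.1, ∀ h ∈ i.1, g * h ∈ i.1 → d (φ (g * h)) (φ g * φ h) ≤ 1 / ((i.2 : ℝ) + 1)) ∧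
      ∀ g ∈ i.1, g ≠ 1 → 1 ≤ d (φ g) 1 := fun i => hQ i.1 _ (by positivity)
  choose H iG iF d φ h1 h2 h3 h4 using hch
  let 𝓤 : Ultrafilter I := Ultrafilter.of atTop
  have hle : (𝓤 : Filter I) ≤ atTop := Ultrafilter.of_le _
  have ev : ∀ (P : I → Prop) (i0 : I), (∀ i, i0 ≤ i → P i) → ∀ᶠ i in (𝓤 : Filter I), P i := by
    intro P i0 h
    exact hle (Filter.eventually_atTop.2 ⟨i0, h⟩)
  have evQ : ∀ q : Q, ∀ᶠ i in (𝓤 : Filter I), q ∈ i.1 := by
    intro q
    exact ev _ ({q}, 0) (fun i hi => hi.1 (Finset.mem_singleton_self q))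
  have evn : ∀ k : ℕ, ∀ᶠ i in (𝓤 : Filter I), k ≤ i.2 := by
    intro k
    exact ev _ (∅, k) (fun i hi => hi.2)
  let M : Subgroup (∀ i, H i) :=
    { carrier := {x | ∀ ε : ℝ, 0 < ε → ∀ᶠ i in (𝓤 : Filter I), d i (x i) 1 < ε}
      one_mem' := by
        intro ε hε
        refine Filter.Eventually.of_forall (fun i => ?_)
        show d i 1 1 < ε
        rw [(h1 i).self]
        exact hε
      mul_mem' := by
        intro x y hx hy ε hε
        filter_upwards [hx (ε / 2) (by positivity), hy (ε / 2) (by positivity)] with i hi1 hi2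
        have := (h1 i).mul_le (x i) (y i)
        show d i (x i * y i) 1 < ε
        linarith
      inv_mem' := by
        intro x hx ε hε
        filter_upwards [hx ε hε] with i hi
        show d i (x i)⁻¹ 1 < ε
        rw [(h1 i).inv]
        exact hi }
  have hMdef : ∀ x : ∀ i, H i, x ∈ M ↔ ∀ ε : ℝ, 0 < ε →
      ∀ᶠ i in (𝓤 : Filter I), d i (x i) 1 < ε := fun x => Iff.rfl
  have hN : M.Normal := by
    constructor
    intro x hx y
    rw [hMdef] at hx ⊢
    intro ε hε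
    filter_upwards [hx ε hε] with i hi
    show d i (y i * x i * (y i)⁻¹) 1 < ε
    rw [(h1 i).conj]
    exact hi
  refine sws_of_comm iF 𝓤 M hN ?_ (fun q i => φ i q) ?_ ?_
  · rintro x ⟨T, hT, hTM, hx⟩ y ⟨T', hT', hTM', hy⟩
    rw [hMdef]
    intro ε hε
    have hU : (T ∪ T').Finite := hT.union hT'
    have hUM : T ∪ T' ⊆ M := Set.union_subset hTM hTM'
    set C : ℝ := ∑ k ∈ Finset.range (hU.toFinset.card + 1), |f k| with hC
    have hC0 : 0 ≤ C := Finset.sum_nonneg (fun k _ => abs_nonneg _)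
    have hU' : ∀ᶠ i in (𝓤 : Filter I), ∀ t ∈ hU.toFinset,
        d i (t i) 1 < ε / ((C + 1) * ((hU.toFinset.card : ℝ) + 1)) := by
      rw [Filter.eventually_all_finset]
      intro t ht
      exact (hMdef t).1 (hUM (hU.mem_toFinset.1 ht)) _ (by positivity)
    filter_upwards [hx, hy, hU'] with i hi1 hi1' hi2
    have h5 : x i ∈ Subgroup.closure ((fun t : ∀ i, H i => t i) '' (hU.toFinset : Set _)) := by
      rw [hU.coe_toFinset]
      exact gen_mono Set.subset_union_left i hi1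
    have h5' : y i ∈ Subgroup.closure ((fun t : ∀ i, H i => t i) '' (hU.toFinset : Set _)) := by
      rw [hU.coe_toFinset]
      exact gen_mono Set.subset_union_right i hi1'
    have h6 := (h1 i).comm_family (h2 i) hU.toFinset (fun t => t i) (x i) (y i) h5 h5'
    have h7 : ∑ t ∈ hU.toFinset, d i (t i) 1 ≤
        ∑ t ∈ hU.toFinset, ε / ((C + 1) * ((hU.toFinset.card : ℝ) + 1)) :=
      Finset.sum_le_sum (fun t ht => (hi2 t ht).le)
    rw [Finset.sum_const, nsmul_eq_mul] at h7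
    show d i (x i * y i * (y i * x i)⁻¹) 1 < ε
    rw [(h1 i).mul_inv]
    have h8 := arith_aux C (hU.toFinset.card : ℝ) ε hC0 (Nat.cast_nonneg _) hε
    calc d i (x i * y i) (y i * x i) ≤ C * ∑ t ∈ hU.toFinset, d i (t i) 1 := h6
      _ ≤ C * ((hU.toFinset.card : ℝ) * (ε / ((C + 1) * ((hU.toFinset.card : ℝ) + 1)))) :=
          mul_le_mul_of_nonneg_left h7 hC0
      _ < ε := h8
  · intro g h
    rw [hMdef]
    intro ε hε
    obtain ⟨k, hk⟩ := exists_nat_gt (1 / ε)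
    filter_upwards [evQ g, evQ h, evQ (g * h), evn k] with i hi1 hi2 hi3 hi4
    show d i (φ i g * φ i h * (φ i (g * h))⁻¹) 1 < ε
    rw [(h1 i).mul_inv, (h1 i).symm]
    refine (h3 i g hi1 h hi2 hi3).trans_lt ?_
    rw [div_lt_iff₀ (by positivity)]
    rw [div_lt_iff₀ hε] at hk
    have : (k : ℝ) ≤ i.2 := by exact_mod_cast hi4
    nlinarith
  · intro g hg hmem
    rw [hMdef] at hmem
    obtain ⟨i, hi1, hi2⟩ := ((hmem 1 one_pos).and (evQ g)).exists
    have := h4 i g hi2 hg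
    have hi1' : d i (φ i g) 1 < 1 := hi1
    linarith

theorem SubgroupWeaklySofic.cws {Q : Type u} [Group Q] (hQ : SubgroupWeaklySofic Q) :
    CommutatorWeaklySofic Q := by
  refine ⟨fun _ => 2, fun F ε hε => ?_⟩
  obtain ⟨H, i1, i2, d, φ, h1, h2, h3, h4⟩ := hQ F ε hε
  refine ⟨H, i1, i2, d, φ, h1, ?_, h3, h4⟩
  intro S a ha b hb
  have e1 := h2 S (a * b * (b * a)⁻¹) (mul_mem (mul_mem ha hb) (inv_mem (mul_mem hb ha)))
  rw [h1.mul_inv] at e1
  have e2 : 0 ≤ ∑ s ∈ S, d s 1 := Finset.sum_nonneg (fun s _ => h1.nonneg _ _)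
  linarith

end Pool.Agent.Helper202WS
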