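import Mathlib

/-!
Weak soficity and its strong form, for the graph product theorem.
-/

open Filter Subgroup

namespace Pool.Agent.Helper202WS

universe u v

/-- `d` is a bi-invariant metric on the group `H`. -/
structure IsBiInvMetric {H : Type} [Group H] (d : H → H → ℝ) : Prop where
  self : ∀ x, d x x = 0
  eq_of : ∀ x y, d x y = 0 → x = y
  symm : ∀ x y, d x y = d y x
  tri : ∀ x y z, d x z ≤ d x y + d y z
  left : ∀ a x y, d (a * x) (a * y) = d x y
  right : ∀ a x y, d (x * a) (y * a) = d x y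

/-- weakly sofic groups (the definition of the problem file) -/
def WeaklySofic (G : Type u) [Group G] : Prop :=
  ∀ (F : Finset G) (ε : ℝ), 0 < ε →
    ∃ (H : Type) (_ : Group H) (_ : Finite H) (d : H → H → ℝ) (φ : G → H),
      IsBiInvMetric d ∧
      (∀ g ∈ F, ∀ h ∈ F, g * h ∈ F → d (φ (g * h)) (φ g * φ h) ≤ ε) ∧
      ∀ g ∈ F, g ≠ 1 → 1 ≤ d (φ g) 1

/-- The subgroup inequality: an element of the subgroup generated by a finite set `S` is at
distance at most `∑_{s ∈ S} d(s, 1)` from `1`. -/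
def SubgroupBounded {H : Type} [Group H] (d : H → H → ℝ) : Prop :=
  ∀ (S : Finset H), ∀ x ∈ Subgroup.closure (S : Set H), d x 1 ≤ ∑ s ∈ S, d s 1

/-- strongly weakly sofic groups: the metrics are required to satisfy the subgroup inequality. -/
def SubgroupWeaklySofic (G : Type u) [Group G] : Prop :=
  ∀ (F : Finset G) (ε : ℝ), 0 < ε →
    ∃ (H : Type) (_ : Group H) (_ : Finite H) (d : H → H → ℝ) (φ : G → H),
      IsBiInvMetric d ∧ SubgroupBounded d ∧
      (∀ g ∈ F, ∀ h ∈ F, g * h ∈ F → d (φ (g * h)) (φ g * φ h) ≤ ε) ∧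
      ∀ g ∈ F, g ≠ 1 → 1 ≤ d (φ g) 1

theorem SubgroupWeaklySofic.weaklySofic {G : Type u} [Group G]
    (h : SubgroupWeaklySofic G) : WeaklySofic G := by
  intro F ε hε
  obtain ⟨H, i1, i2, d, φ, h1, _, h3, h4⟩ := h F ε hε
  exact ⟨H, i1, i2, d, φ, h1, h3, h4⟩

namespace IsBiInvMetric

variable {H : Type} [Group H] {d : H → H → ℝ} (hd : IsBiInvMetric d)
include hd

theorem nonneg (x y : H) : 0 ≤ d x y := by
  have h1 := hd.tri x y x
  rw [hd.self, hd.symm y x] at h1
  linarith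

theorem conj (y x : H) : d (y * x * y⁻¹) 1 = d x 1 := by
  have h1 := hd.right y (y * x * y⁻¹) 1
  have h2 := hd.left y x 1
  rw [← h1, ← h2]
  congr 1 <;> group

theorem inv (x : H) : d x⁻¹ 1 = d x 1 := by
  have h1 := hd.left x x⁻¹ 1
  rw [← h1, hd.symm]
  congr 1 <;> group

theorem mul_le (x y : H) : d (x * y) 1 ≤ d x 1 + d y 1 := by
  have h1 := hd.tri (x * y) y 1
  have h2 := hd.right y x 1
  rw [one_mul] at h2
  linarith

theorem mul_inv (x y : H) : d (x * y⁻¹) 1 = d x y := by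
  have h1 := hd.right y (x * y⁻¹) 1
  rw [← h1]
  congr 1 <;> group

theorem family (hs : SubgroupBounded d) {τ : Type*} (T : Finset τ) (e : τ → H) (x : H)
    (hx : x ∈ Subgroup.closure (e '' (T : Set τ))) : d x 1 ≤ ∑ t ∈ T, d (e t) 1 := by
  classical
  have h1 := hs (T.image e) x (by rwa [Finset.coe_image])
  refine h1.trans ?_
  have h2 : ∑ t ∈ T, d (e t) 1 = ∑ s ∈ T.image e, ∑ t ∈ T.filter (fun t => e t = s), d (e t) 1 :=
    (Finset.sum_fiberwise_of_maps_to (fun t ht => Finset.mem_image_of_mem e ht) _).symm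
  rw [h2]
  apply Finset.sum_le_sum
  intro s hs'
  obtain ⟨t, ht, rfl⟩ := Finset.mem_image.1 hs'
  exact Finset.single_le_sum (f := fun t => d (e t) 1) (fun a _ => hd.nonneg _ _)
    (Finset.mem_filter.2 ⟨ht, rfl⟩)

end IsBiInvMetric

end Pool.Agent.Helper202WS
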