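import Pool.Agent.Helper202_WS.Main

/-!
The inequality for derived subgroups suffices.
-/

set_option linter.unusedSectionVars false

open Filter Subgroup

namespace Pool.Agent.Helper202WS

universe u v w

/-- If the radical is commutative then it is trivial. -/
theorem comm_rad {G : Type u} [Group G] (hc : ∀ a ∈ rad G, ∀ b ∈ rad G, a * b = b * a) :
    ∀ g ∈ rad G, g = 1 := by
  classical
  let _ : CommGroup (rad G) := { (inferInstance : Group (rad G)) with
    mul_comm := fun a b => Subtype.ext (hc a a.2 b b.2) }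
  have hDmem : ∀ (g : G) (x : G ⧸ rad G),
      g * ((g : G ⧸ rad G)⁻¹ * x).out * (x.out)⁻¹ ∈ rad G := by
    intro g x
    rw [← QuotientGroup.eq_one_iff (N := rad G)]
    rw [QuotientGroup.mk_mul, QuotientGroup.mk_mul, QuotientGroup.mk_inv, QuotientGroup.out_eq',
      QuotientGroup.out_eq', mul_inv_cancel_left, mul_inv_cancel]
  let D : G → (G ⧸ rad G → Additive (rad G)) := fun g x =>
    Additive.ofMul ⟨g * ((g : G ⧸ rad G)⁻¹ * x).out * (x.out)⁻¹, hDmem g x⟩
  let cj : G → rad G → rad G := fun g r => ⟨g * r * g⁻¹, (inferInstance : (rad G).Normal).conj_mem r r.2 g⟩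
  have hcj : ∀ g r s, cj g (r * s) = cj g r * cj g s := by
    intro g r s
    apply Subtype.ext
    show g * (r * s) * g⁻¹ = (g * r * g⁻¹) * (g * s * g⁻¹)
    group
  have hcj1 : ∀ g, cj g 1 = 1 := by
    intro g
    apply Subtype.ext
    show g * 1 * g⁻¹ = 1
    group
  let ρ : G →* AddMonoid.End (G ⧸ rad G → Additive (rad G)) :=
    { toFun := fun g =>
        { toFun := fun f x => Additive.ofMul (cj g (Additive.toMul (f ((g : G ⧸ rad G)⁻¹ * x))))
          map_zero' := by
            funext x
            exact congrArg Additive.ofMul (hcj1 g)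
          map_add' := by
            intro f f'
            funext x
            exact congrArg Additive.ofMul (hcj g _ _) }
      map_one' := by
        refine AddMonoidHom.ext (fun f => funext (fun x => ?_))
        show Additive.ofMul (cj 1 (Additive.toMul (f (((1 : G) : G ⧸ rad G)⁻¹ * x)))) = f x
        rw [QuotientGroup.mk_one, inv_one, one_mul]
        apply congrArg Additive.ofMul
        apply Subtype.ext
        show 1 * _ * (1 : G)⁻¹ = _
        group
        rfl
      map_mul' := by
        intro g h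
        refine AddMonoidHom.ext (fun f => funext (fun x => ?_))
        show Additive.ofMul (cj (g * h) (Additive.toMul (f (((g * h : G) : G ⧸ rad G)⁻¹ * x)))) =
          Additive.ofMul (cj g (cj h (Additive.toMul (f ((h : G ⧸ rad G)⁻¹ *
            ((g : G ⧸ rad G)⁻¹ * x))))))
        rw [QuotientGroup.mk_mul, mul_inv_rev, mul_assoc]
        apply congrArg Additive.ofMul
        apply Subtype.ext
        show (g * h) * _ * (g * h)⁻¹ = g * (h * _ * h⁻¹) * g⁻¹
        group }
  have hρ : ∀ g, QuotientGroup.mk' (rad G) g = 1 → ρ g = 1 := by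
    intro g hg
    have hg' : g ∈ rad G := (QuotientGroup.eq_one_iff g).1 hg
    have hg1 : ((g : G) : G ⧸ rad G) = 1 := hg
    refine AddMonoidHom.ext (fun f => funext (fun x => ?_))
    show Additive.ofMul (cj g (Additive.toMul (f ((g : G ⧸ rad G)⁻¹ * x)))) = f x
    rw [hg1, inv_one, one_mul]
    apply congrArg Additive.ofMul
    apply Subtype.ext
    show g * ((Additive.toMul (f x) : rad G) : G) * g⁻¹ = _
    rw [hc g hg' _ (Additive.toMul (f x) : rad G).2, mul_inv_cancel_right]
    rfl
  have hD : ∀ g h, D (g * h) = D g + ρ g (D h) := by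
    intro g h
    funext x
    rw [add_comm]
    apply congrArg Additive.ofMul
    apply Subtype.ext
    show (g * h) * (((g * h : G) : G ⧸ rad G)⁻¹ * x).out * (x.out)⁻¹ =
      (g * (h * ((h : G ⧸ rad G)⁻¹ * ((g : G ⧸ rad G)⁻¹ * x)).out *
        (((g : G ⧸ rad G)⁻¹ * x).out)⁻¹) * g⁻¹) *
      (g * ((g : G ⧸ rad G)⁻¹ * x).out * (x.out)⁻¹)
    rw [QuotientGroup.mk_mul, mul_inv_rev, mul_assoc (h : G ⧸ rad G)⁻¹]
    group
  intro g hg
  have h1 := deriv_rad (quot_rad G) (QuotientGroup.mk' (rad G)) ρ hρ D hD hg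
  have h2 := congrFun h1 1
  have hg1 : ((g : G) : G ⧸ rad G) = 1 := (QuotientGroup.eq_one_iff g).2 hg
  have h3 : g * ((g : G ⧸ rad G)⁻¹ * 1).out * ((1 : G ⧸ rad G).out)⁻¹ = 1 :=
    congrArg (fun r : Additive (rad G) => ((Additive.toMul r : rad G) : G)) h2
  rw [hg1, inv_one, one_mul] at h3
  simpa using h3

end Pool.Agent.Helper202WS
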