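import Pool.Agent.Helper202_WS.Defs

/-!
Graph products of groups.
-/

set_option linter.unusedSectionVars false

open Subgroup

namespace Pool.Agent.Helper202WS

universe u v w

/-- the commutators of elements of adjacent vertex groups, in the free product -/
def commSet {V : Type u} (X : SimpleGraph V) (Γ : V → Type v) [∀ v, Group (Γ v)] :
    Set (Monoid.CoprodI Γ) :=
  {x | ∃ (u w : V) (_ : X.Adj u w) (a : Γ u) (b : Γ w),
    x = Monoid.CoprodI.of a * Monoid.CoprodI.of b * (Monoid.CoprodI.of a)⁻¹ *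
      (Monoid.CoprodI.of b)⁻¹}

/-- the graph product of the family `Γ` over the simple graph `X` -/
abbrev GraphProduct {V : Type u} (X : SimpleGraph V) (Γ : V → Type v) [∀ v, Group (Γ v)] :
    Type (max u v) :=
  Monoid.CoprodI Γ ⧸ Subgroup.normalClosure (commSet X Γ)

namespace GP

section

variable {V : Type u} (X : SimpleGraph V) (Γ : V → Type v) [∀ v, Group (Γ v)]

/-- the vertex maps -/
def ι (v : V) : Γ v →* GraphProduct X Γ :=
  (QuotientGroup.mk' (Subgroup.normalClosure (commSet X Γ))).comp Monoid.CoprodI.of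

variable {X Γ}

theorem ι_comm {u w : V} (h : X.Adj u w) (a : Γ u) (b : Γ w) :
    ι X Γ u a * ι X Γ w b = ι X Γ w b * ι X Γ u a := by
  have h1 : (Monoid.CoprodI.of a : Monoid.CoprodI Γ) * Monoid.CoprodI.of b *
      (Monoid.CoprodI.of a)⁻¹ * (Monoid.CoprodI.of b)⁻¹ ∈
      Subgroup.normalClosure (commSet X Γ) :=
    Subgroup.subset_normalClosure ⟨u, w, h, a, b, rfl⟩
  have h2 := (QuotientGroup.eq_one_iff
    (N := Subgroup.normalClosure (commSet X Γ)) _).2 h1
  rw [QuotientGroup.mk_mul, QuotientGroup.mk_mul, QuotientGroup.mk_mul,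
    QuotientGroup.mk_inv, QuotientGroup.mk_inv, mul_inv_eq_one, mul_inv_eq_iff_eq_mul] at h2
  exact h2

/-- universal property -/
def lift {K : Type w} [Group K] (f : ∀ v, Γ v →* K)
    (hf : ∀ u w, X.Adj u w → ∀ (a : Γ u) (b : Γ w), f u a * f w b = f w b * f u a) :
    GraphProduct X Γ →* K :=
  QuotientGroup.lift _ (Monoid.CoprodI.lift f) (by
    intro x hx
    have h1 : Subgroup.normalClosure (commSet X Γ) ≤ (Monoid.CoprodI.lift f).ker := by
      apply Subgroup.normalClosure_le_normal
      rintro _ ⟨u, w, h, a, b, rfl⟩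
      show Monoid.CoprodI.lift f _ = 1
      rw [map_mul, map_mul, map_mul, map_inv, map_inv, Monoid.CoprodI.lift_of,
        Monoid.CoprodI.lift_of, hf u w h a b]
      group
    exact h1 hx)

theorem lift_ι {K : Type w} [Group K] (f : ∀ v, Γ v →* K)
    (hf : ∀ u w, X.Adj u w → ∀ (a : Γ u) (b : Γ w), f u a * f w b = f w b * f u a) (v : V)
    (a : Γ v) : lift f hf (ι X Γ v a) = f v a := by
  show Monoid.CoprodI.lift f (Monoid.CoprodI.of a) = f v a
  exact Monoid.CoprodI.lift_of f a

theorem hom_ext {K : Type w} [Group K] {f g : GraphProduct X Γ →* K}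
    (h : ∀ v a, f (ι X Γ v a) = g (ι X Γ v a)) : f = g := by
  apply QuotientGroup.monoidHom_ext
  apply Monoid.CoprodI.ext_hom
  intro v
  ext a
  exact h v a

/-- the subgroup generated by the vertex groups in `W` -/
def sub (X : SimpleGraph V) (Γ : V → Type v) [∀ v, Group (Γ v)] (W : Set V) :
    Subgroup (GraphProduct X Γ) :=
  Subgroup.closure {x | ∃ v ∈ W, ∃ a : Γ v, ι X Γ v a = x}

theorem ι_mem {W : Set V} {v : V} (hv : v ∈ W) (a : Γ v) : ι X Γ v a ∈ sub X Γ W :=
  Subgroup.subset_closure ⟨v, hv, a, rfl⟩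

theorem sub_le {W : Set V} {S : Subgroup (GraphProduct X Γ)}
    (h : ∀ v ∈ W, ∀ a : Γ v, ι X Γ v a ∈ S) : sub X Γ W ≤ S := by
  unfold sub
  rw [Subgroup.closure_le]
  rintro _ ⟨v, hv, a, rfl⟩
  exact h v hv a

theorem sub_mono {W W' : Set V} (h : W ⊆ W') : sub X Γ W ≤ sub X Γ W' :=
  sub_le (fun _ hv a => ι_mem (h hv) a)

theorem sub_univ : sub X Γ Set.univ = ⊤ := by
  rw [eq_top_iff]
  intro x _
  obtain ⟨y, rfl⟩ := QuotientGroup.mk_surjective x
  induction y using Monoid.CoprodI.induction_on with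
  | one => exact one_mem _
  | of v a => exact ι_mem (Set.mem_univ v) a
  | mul x y hx hy =>
    rw [QuotientGroup.mk_mul]
    exact mul_mem (hx trivial) (hy trivial)

theorem exists_finite (x : GraphProduct X Γ) : ∃ W : Finset V, x ∈ sub X Γ (W : Set V) := by
  classical
  have hx : x ∈ sub X Γ Set.univ := by rw [sub_univ]; trivial
  unfold sub at hx
  induction hx using Subgroup.closure_induction with
  | mem x hx =>
    obtain ⟨v, _, a, rfl⟩ := hx
    exact ⟨{v}, ι_mem (by simp) a⟩
  | one => exact ⟨∅, one_mem _⟩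
  | mul x y _ _ ihx ihy =>
    obtain ⟨W, hW⟩ := ihx
    obtain ⟨W', hW'⟩ := ihy
    exact ⟨W ∪ W', mul_mem (sub_mono (by simp) hW) (sub_mono (by simp) hW')⟩
  | inv x _ ihx =>
    obtain ⟨W, hW⟩ := ihx
    exact ⟨W, inv_mem hW⟩

open Classical in
/-- the retraction onto the subgroup generated by the vertex groups in `W` -/
noncomputable def ret (X : SimpleGraph V) (Γ : V → Type v) [∀ v, Group (Γ v)] (W : Set V) :
    GraphProduct X Γ →* GraphProduct X Γ :=
  lift (fun v => if v ∈ W then ι X Γ v else 1) (by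
    intro u w h a b
    by_cases hu : u ∈ W <;> by_cases hw : w ∈ W <;> simp [hu, hw, ι_comm h])

theorem ret_ι_mem {W : Set V} {v : V} (hv : v ∈ W) (a : Γ v) :
    ret X Γ W (ι X Γ v a) = ι X Γ v a := by
  unfold ret
  rw [lift_ι]
  simp [hv]

theorem ret_ι_not_mem {W : Set V} {v : V} (hv : v ∉ W) (a : Γ v) :
    ret X Γ W (ι X Γ v a) = 1 := by
  unfold ret
  rw [lift_ι]
  simp [hv]

theorem ret_mem {W U : Set V} {x : GraphProduct X Γ} (hx : x ∈ sub X Γ U) :
    ret X Γ W x ∈ sub X Γ (U ∩ W) := by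
  have h : sub X Γ U ≤ (sub X Γ (U ∩ W)).comap (ret X Γ W) := by
    apply sub_le
    intro v hv a
    rw [Subgroup.mem_comap]
    by_cases hW : v ∈ W
    · rw [ret_ι_mem hW]
      exact ι_mem (W := U ∩ W) ⟨hv, hW⟩ a
    · rw [ret_ι_not_mem hW]
      exact one_mem _
  exact h hx

theorem ret_id {W : Set V} {x : GraphProduct X Γ} (hx : x ∈ sub X Γ W) : ret X Γ W x = x := by
  have h : sub X Γ W ≤ MonoidHom.eqLocus (ret X Γ W) (MonoidHom.id _) := by
    apply sub_le
    intro v hv a
    exact ret_ι_mem hv a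
  exact h hx

open Classical in
/-- the projection to a vertex group -/
noncomputable def proj (X : SimpleGraph V) (Γ : V → Type v) [∀ v, Group (Γ v)] (v : V) :
    GraphProduct X Γ →* Γ v :=
  lift (fun w => if h : w = v then h ▸ MonoidHom.id (Γ w) else 1) (by
    intro u w h a b
    by_cases hu : u = v
    · subst hu
      have hw : ¬ w = u := fun hw => X.irrefl (hw ▸ h)
      simp [hw]
    · simp [hu])

theorem proj_ι (v : V) (a : Γ v) : proj X Γ v (ι X Γ v a) = a := by
  unfold proj
  rw [lift_ι]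
  simp

theorem proj_ι_ne {v w : V} (h : w ≠ v) (a : Γ w) : proj X Γ v (ι X Γ w a) = 1 := by
  unfold proj
  rw [lift_ι]
  simp [h]

/-- elements of the subgroup generated by a vertex and some of its neighbours split -/
theorem split {v : V} {L : Set V} (hL : ∀ u ∈ L, X.Adj v u) {x : GraphProduct X Γ}
    (hx : x ∈ sub X Γ (insert v L)) : x = ret X Γ L x * ι X Γ v (proj X Γ v x) := by
  have hvL : v ∉ L := fun h => X.irrefl (hL v h)
  have hcomm : ∀ y ∈ sub X Γ L, ∀ a : Γ v, y * ι X Γ v a = ι X Γ v a * y := by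
    intro y hy a
    have h : sub X Γ L ≤ Subgroup.centralizer {ι X Γ v a} := by
      apply sub_le
      intro u hu b
      rw [Subgroup.mem_centralizer_singleton_iff]
      exact (ι_comm (hL u hu) a b).symm
    have := h hy
    rw [Subgroup.mem_centralizer_singleton_iff] at this
    exact this
  have hretL : ∀ y, y ∈ sub X Γ (insert v L) → ret X Γ L y ∈ sub X Γ L := by
    intro y hy
    exact sub_mono Set.inter_subset_right (ret_mem hy)
  have hx' := hx
  unfold sub at hx'
  induction hx' using Subgroup.closure_induction with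
  | mem x hx' =>
    obtain ⟨u, hu, a, rfl⟩ := hx'
    rcases hu with rfl | hu
    · rw [ret_ι_not_mem hvL, proj_ι, one_mul]
    · have : u ≠ v := fun h => hvL (h ▸ hu)
      rw [ret_ι_mem hu, proj_ι_ne this, map_one, mul_one]
  | one => simp
  | mul x y hx1 hy1 ihx ihy =>
    have e1 := ihx hx1
    have e2 := ihy hy1
    rw [map_mul, map_mul, map_mul]
    calc x * y = (ret X Γ L x * ι X Γ v (proj X Γ v x)) *
        (ret X Γ L y * ι X Γ v (proj X Γ v y)) := by rw [← e1, ← e2]
      _ = ret X Γ L x * (ι X Γ v (proj X Γ v x) * ret X Γ L y) * ι X Γ v (proj X Γ v y) := by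
          group
      _ = _ := by
          rw [← hcomm _ (hretL y hy1)]
          group
  | inv x hx1 ihx =>
    have e1 := ihx hx1
    rw [map_inv, map_inv, map_inv]
    have h2 := hcomm _ (hretL x hx1) (proj X Γ v x)
    have h3 : x⁻¹ = (ret X Γ L x * ι X Γ v (proj X Γ v x))⁻¹ := by rw [← e1]
    rw [h3, h2, mul_inv_rev]

end

end GP

end Pool.Agent.Helper202WS
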