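import Pool.Agent.Helper202_WS.Ultra

/-!
The extension lemma: values of derivations on the kernel are detected by a new generation-closed
normal subgroup.
-/

set_option linter.unusedSectionVars false

open Filter Subgroup

namespace Pool.Agent.Helper202WS

universe u v w

/-- functions `H → A` extended by `H` acting by left translations -/
@[ext]
structure SD (H A : Type) where
  l : H → A
  r : H

namespace SD

variable {H A : Type} [Group H] [AddCommGroup A]

instance : Mul (SD H A) := ⟨fun x y => ⟨fun z => x.l z + y.l (x.r⁻¹ * z), x.r * y.r⟩⟩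
instance : One (SD H A) := ⟨⟨fun _ => 0, 1⟩⟩
instance : Inv (SD H A) := ⟨fun x => ⟨fun z => - x.l (x.r * z), x.r⁻¹⟩⟩

theorem mul_l (x y : SD H A) : (x * y).l = fun z => x.l z + y.l (x.r⁻¹ * z) := rfl
theorem mul_r (x y : SD H A) : (x * y).r = x.r * y.r := rfl
theorem one_l : (1 : SD H A).l = fun _ => 0 := rfl
theorem one_r : (1 : SD H A).r = 1 := rfl
theorem inv_l (x : SD H A) : (x⁻¹).l = fun z => - x.l (x.r * z) := rfl
theorem inv_r (x : SD H A) : (x⁻¹).r = x.r⁻¹ := rfl

instance : Group (SD H A) where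
  mul_assoc a b c := by
    ext z
    · simp [mul_l, mul_r, add_assoc, mul_assoc]
    · simp [mul_r, mul_assoc]
  one_mul a := by
    ext z
    · simp [mul_l, one_l, one_r]
    · simp [mul_r, one_r]
  mul_one a := by
    ext z
    · simp [mul_l, one_l]
    · simp [mul_r, one_r]
  inv_mul_cancel a := by
    ext z
    · simp [mul_l, one_l, inv_l, inv_r]
    · simp [mul_r, one_r, inv_r]

instance [Finite H] [Finite A] : Finite (SD H A) :=
  Finite.of_injective (fun x : SD H A => (x.l, x.r)) (by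
    intro x y h
    simp only [Prod.mk.injEq] at h
    exact SD.ext h.1 h.2)

end SD

/-- the rational circle -/
abbrev Circ : Type := AddCircle (1 : ℚ)

section pairing

variable {H A : Type} [Group H] [AddCommGroup A] [Fintype H]

def pair (f : H → (A →+ Circ)) (v : H → A) : Circ := ∑ z, f z (v z)

theorem pair_add (f : H → (A →+ Circ)) (v w : H → A) :
    pair f (fun z => v z + w z) = pair f v + pair f w := by
  simp [pair, Finset.sum_add_distrib]

theorem pair_neg (f : H → (A →+ Circ)) (v : H → A) :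
    pair f (fun z => - v z) = - pair f v := by
  simp [pair]

theorem pair_shift (f : H → (A →+ Circ)) (v : H → A) (g : H) :
    pair f (fun z => v (g⁻¹ * z)) = pair (fun z => f (g * z)) v := by
  unfold pair
  rw [← Equiv.sum_comp (Equiv.mulLeft g)]
  simp

theorem pair_shift_inv (f : H → (A →+ Circ)) (v : H → A) (g : H) (hf : ∀ z, f (g * z) = f z) :
    pair f (fun z => v (g⁻¹ * z)) = pair f v := by
  rw [pair_shift]
  congr 1
  funext z
  exact hf z

theorem pair_delta [DecidableEq H] (f : H → (A →+ Circ)) (a : A) :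
    pair f (fun z => if z = 1 then a else 0) = f 1 a := by
  unfold pair
  rw [Finset.sum_eq_single 1]
  · simp
  · intro b _ hb
    simp [hb]
  · simp

end pairing

section key

variable {I : Type u} {H : I → Type} [∀ i, Group (H i)] [∀ i, Fintype (H i)]
  {A : I → Type} [∀ i, AddCommGroup (A i)]
  {G : Type v} [Group G] {B : Type w} [AddCommGroup B]

/-- evaluation of formal sums -/
def ev (a : ∀ i, B → A i) (i : I) (f : H i → (A i →+ Circ))
    (y : FreeAbelianGroup ((∀ i, H i) × B)) : Circ :=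
  FreeAbelianGroup.lift (fun x : (∀ i, H i) × B => f (x.1 i) (a i x.2)) y

/-- formal sums killed by every compatible family of characters -/
def KK (M : Subgroup (∀ i, H i)) (p : G → ∀ i, H i) (ρ : G →* AddMonoid.End B) :
    Set (FreeAbelianGroup ((∀ i, H i) × B)) :=
  {y | ∀ χ : (∀ i, H i) → (B →+ Circ), (∀ h, ∀ m ∈ M, χ (h * m) = χ h) →
    (∀ h g b, χ (h * p g) b = χ h (ρ g b)) →
    FreeAbelianGroup.lift (fun x : (∀ i, H i) × B => χ x.1 x.2) y = 0}

theorem inv_of_gen {T : Set (∀ i, H i)} {i : I} {X : Type*} {f : H i → X}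
    (hf : ∀ t ∈ T, ∀ z, f (t i * z) = f z) {g : H i} (hg : g ∈ gen T i) (z : H i) :
    f (g * z) = f z := by
  have key : gen T i ≤
      ({ carrier := {g | ∀ z, f (g * z) = f z}
         one_mem' := by intro z; simp
         mul_mem' := by
           intro a b ha hb z
           rw [mul_assoc, ha, hb]
         inv_mem' := by
           intro a ha z
           have := ha (a⁻¹ * z)
           rw [← this]
           simp } : Subgroup (H i)) := by
    unfold gen
    rw [Subgroup.closure_le]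
    rintro _ ⟨t, ht, rfl⟩
    exact hf t ht
  exact key hg z

/-- the subgroups of the new finite groups -/
def EE (a : ∀ i, B → A i) (T : Set (∀ i, H i))
    (Y : Set (FreeAbelianGroup ((∀ i, H i) × B))) (i : I) : Subgroup (SD (H i) (A i)) where
  carrier := {x | x.r ∈ gen T i ∧ ∀ f : H i → (A i →+ Circ),
    (∀ t ∈ T, ∀ z, f (t i * z) = f z) → (∀ y ∈ Y, ev a i f y = 0) → pair f x.l = 0}
  one_mem' := by
    refine ⟨one_mem _, fun f _ _ => ?_⟩
    simp [pair, SD.one_l]
  mul_mem' := by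
    rintro x y ⟨hx1, hx2⟩ ⟨hy1, hy2⟩
    refine ⟨mul_mem hx1 hy1, fun f hf hY => ?_⟩
    rw [SD.mul_l, pair_add, hx2 f hf hY, pair_shift_inv _ _ _ (fun z => inv_of_gen hf hx1 z),
      hy2 f hf hY, add_zero]
  inv_mem' := by
    rintro x ⟨hx1, hx2⟩
    refine ⟨inv_mem hx1, fun f hf hY => ?_⟩
    rw [SD.inv_l, pair_neg]
    have h := pair_shift_inv f x.l (x.r)⁻¹ (fun z => inv_of_gen hf (inv_mem hx1) z)
    rw [inv_inv] at h
    rw [h, hx2 f hf hY, neg_zero]

theorem EE_mono (a : ∀ i, B → A i) {T T' : Set (∀ i, H i)}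
    {Y Y' : Set (FreeAbelianGroup ((∀ i, H i) × B))} (hT : T ⊆ T') (hY : Y ⊆ Y') (i : I) :
    EE a T Y i ≤ EE a T' Y' i := by
  rintro x ⟨h1, h2⟩
  exact ⟨gen_mono hT i h1, fun f hf hy => h2 f (fun t ht => hf t (hT ht)) (fun y hy' => hy y (hY hy'))⟩

/-- left translation of formal sums -/
def tr (c : ∀ i, H i) : FreeAbelianGroup ((∀ i, H i) × B) →+ FreeAbelianGroup ((∀ i, H i) × B) :=
  FreeAbelianGroup.map (fun x => (c * x.1, x.2))

theorem ev_tr (a : ∀ i, B → A i) (c : ∀ i, H i) (i : I) (f : H i → (A i →+ Circ))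
    (y : FreeAbelianGroup ((∀ i, H i) × B)) :
    ev a i f (tr c y) = ev a i (fun z => f (c i * z)) y := by
  unfold ev tr
  rw [← FreeAbelianGroup.lift_comp]
  rfl

theorem tr_mem {M : Subgroup (∀ i, H i)} {p : G → ∀ i, H i} {ρ : G →* AddMonoid.End B}
    (c : ∀ i, H i) {y : FreeAbelianGroup ((∀ i, H i) × B)} (hy : y ∈ KK M p ρ) :
    tr c y ∈ KK M p ρ := by
  intro χ h1 h2
  have := hy (fun q => χ (c * q)) (fun h m hm => by rw [← mul_assoc]; exact h1 _ m hm)
    (fun h g b => by rw [← mul_assoc]; exact h2 _ g b)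
  unfold tr
  rw [← FreeAbelianGroup.lift_comp]
  exact this

theorem EE_conj (a : ∀ i, B → A i) {T : Set (∀ i, H i)}
    {Y : Set (FreeAbelianGroup ((∀ i, H i) × B))} {i : I} {x : SD (H i) (A i)}
    (hx : x ∈ EE a T Y i) (w : ∀ i, SD (H i) (A i)) :
    w i * x * (w i)⁻¹ ∈ EE a ((fun t => (fun i => (w i).r) * t * (fun i => (w i).r)⁻¹) '' T)
      ((tr (fun i => (w i).r)) '' Y) i := by
  obtain ⟨hx1, hx2⟩ := hx
  have hr : (w i).r * x.r * ((w i).r)⁻¹ ∈
      gen ((fun t => (fun i => (w i).r) * t * (fun i => (w i).r)⁻¹) '' T) i := by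
    have h4 : (MulAut.conj (w i).r).toMonoidHom x.r ∈
        (gen T i).map (MulAut.conj (w i).r).toMonoidHom := Subgroup.mem_map_of_mem _ hx1
    unfold gen at h4
    rw [MonoidHom.map_closure] at h4
    have h6 := Subgroup.closure_mono (k := (fun t : ∀ i, H i => t i) ''
      ((fun t => (fun i => (w i).r) * t * (fun i => (w i).r)⁻¹) '' T)) (by
        rintro _ ⟨_, ⟨t, ht, rfl⟩, rfl⟩
        exact ⟨_, ⟨t, ht, rfl⟩, by simp [MulAut.conj_apply]⟩) h4
    simpa [MulAut.conj_apply, gen] using h6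
  refine ⟨hr, fun f hf hY => ?_⟩
  have e : (w i * x * (w i)⁻¹).l = fun z => ((w i).l z + x.l (((w i).r)⁻¹ * z)) +
      - (w i).l (((w i).r * x.r * ((w i).r)⁻¹)⁻¹ * z) := by
    funext z
    simp only [SD.mul_l, SD.inv_l, SD.mul_r]
    congr 3
    group
  rw [e, pair_add, pair_add, pair_neg, pair_shift_inv f (w i).l _ (fun z => inv_of_gen hf hr z),
    pair_shift f x.l]
  rw [hx2 (fun z => f ((w i).r * z)) ?_ ?_]
  · abel
  · intro t ht z
    have := hf _ ⟨t, ht, rfl⟩ ((w i).r * z)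
    rw [← this]
    simp [mul_assoc]
  · intro y hy
    rw [← ev_tr a (fun i => (w i).r) i f y]
    exact hY _ ⟨y, hy, rfl⟩

/-- the new subgroup -/
def MM (𝓤 : Ultrafilter I) (a : ∀ i, B → A i) (M : Subgroup (∀ i, H i)) (p : G → ∀ i, H i)
    (ρ : G →* AddMonoid.End B) : Subgroup (∀ i, SD (H i) (A i)) where
  carrier := {x | ∃ (T : Set (∀ i, H i)) (Y : Set (FreeAbelianGroup ((∀ i, H i) × B))),
    T.Finite ∧ T ⊆ M ∧ Y.Finite ∧ Y ⊆ KK M p ρ ∧ ∀ᶠ i in (𝓤 : Filter I), x i ∈ EE a T Y i}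
  one_mem' := ⟨∅, ∅, Set.finite_empty, Set.empty_subset _, Set.finite_empty, Set.empty_subset _,
    Filter.Eventually.of_forall (fun i => one_mem _)⟩
  mul_mem' := by
    rintro x y ⟨T, Y, h1, h2, h3, h4, h5⟩ ⟨T', Y', h1', h2', h3', h4', h5'⟩
    refine ⟨T ∪ T', Y ∪ Y', h1.union h1', Set.union_subset h2 h2', h3.union h3',
      Set.union_subset h4 h4', ?_⟩
    filter_upwards [h5, h5'] with i hi hi'
    exact mul_mem (EE_mono a Set.subset_union_left Set.subset_union_left i hi)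
      (EE_mono a Set.subset_union_right Set.subset_union_right i hi')
  inv_mem' := by
    rintro x ⟨T, Y, h1, h2, h3, h4, h5⟩
    refine ⟨T, Y, h1, h2, h3, h4, ?_⟩
    filter_upwards [h5] with i hi
    exact inv_mem hi

theorem MM_normal (𝓤 : Ultrafilter I) (a : ∀ i, B → A i) (M : Subgroup (∀ i, H i))
    (hN : M.Normal) (p : G → ∀ i, H i) (ρ : G →* AddMonoid.End B) : (MM 𝓤 a M p ρ).Normal := by
  constructor
  rintro x ⟨T, Y, h1, h2, h3, h4, h5⟩ w
  refine ⟨_, _, h1.image (fun t => (fun i => (w i).r) * t * (fun i => (w i).r)⁻¹), ?_,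
    h3.image (tr (fun i => (w i).r)), ?_, ?_⟩
  · rintro _ ⟨t, ht, rfl⟩
    exact hN.conj_mem _ (h2 ht) _
  · rintro _ ⟨y, hy, rfl⟩
    exact tr_mem _ (h4 hy)
  · filter_upwards [h5] with i hi
    exact EE_conj a hi w

theorem MM_closed (𝓤 : Ultrafilter I) (a : ∀ i, B → A i) (M : Subgroup (∀ i, H i))
    (p : G → ∀ i, H i) (ρ : G →* AddMonoid.End B) : GenClosed 𝓤 (MM 𝓤 a M p ρ) := by
  intro S hS hSM x hx
  have hch : ∀ s, s ∈ S → ∃ (T : Set (∀ i, H i))
    (Y : Set (FreeAbelianGroup ((∀ i, H i) × B))),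
    T.Finite ∧ T ⊆ M ∧ Y.Finite ∧ Y ⊆ KK M p ρ ∧ ∀ᶠ i in (𝓤 : Filter I), s i ∈ EE a T Y i :=
    fun s hs => hSM hs
  choose! T Y h1 h2 h3 h4 h5 using hch
  refine ⟨⋃ s ∈ S, T s, ⋃ s ∈ S, Y s, hS.biUnion h1, Set.iUnion₂_subset h2, hS.biUnion h3,
    Set.iUnion₂_subset h4, ?_⟩
  have h6 : ∀ᶠ i in (𝓤 : Filter I), ∀ s ∈ S, s i ∈ EE a (T s) (Y s) i :=
    (Filter.eventually_all_finite hS).2 h5
  filter_upwards [hx, h6] with i hi1 hi2
  have h7 : gen S i ≤ EE a (⋃ s ∈ S, T s) (⋃ s ∈ S, Y s) i := by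
    unfold gen
    rw [Subgroup.closure_le]
    rintro _ ⟨s, hs, rfl⟩
    exact EE_mono a (Set.subset_biUnion_of_mem hs) (Set.subset_biUnion_of_mem hs) i (hi2 s hs)
  exact h7 hi1

end key

end Pool.Agent.Helper202WS
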