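import Pool.Agent.Helper202_WS.Key

/-!
The extension lemma, second half: separation.
-/

set_option linter.unusedSectionVars false

open Filter Subgroup

namespace Pool.Agent.Helper202WS

universe u v w

theorem supp_lift {X : Type*} (y : FreeAbelianGroup X) : ∃ S : Finset X, ∀ F1 F2 : X → Circ,
    (∀ x ∈ S, F1 x = F2 x) → FreeAbelianGroup.lift F1 y = FreeAbelianGroup.lift F2 y := by
  classical
  induction y using FreeAbelianGroup.induction_on with
  | zero => exact ⟨∅, fun F1 F2 _ => by simp⟩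
  | of x =>
    refine ⟨{x}, fun F1 F2 h => ?_⟩
    rw [FreeAbelianGroup.lift_apply_of, FreeAbelianGroup.lift_apply_of]
    exact h x (Finset.mem_singleton_self x)
  | neg x ih =>
    obtain ⟨S, hS⟩ := ih
    refine ⟨S, fun F1 F2 h => ?_⟩
    rw [map_neg, map_neg, hS F1 F2 h]
  | add x y ihx ihy =>
    obtain ⟨S, hS⟩ := ihx
    obtain ⟨S', hS'⟩ := ihy
    refine ⟨S ∪ S', fun F1 F2 h => ?_⟩
    rw [map_add, map_add, hS F1 F2 (fun x hx => h x (Finset.mem_union_left _ hx)),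
      hS' F1 F2 (fun x hx => h x (Finset.mem_union_right _ hx))]

theorem supp_lift_set {X : Type*} (Y : Set (FreeAbelianGroup X)) (hY : Y.Finite) :
    ∃ S : Finset X, ∀ y ∈ Y, ∀ F1 F2 : X → Circ,
    (∀ x ∈ S, F1 x = F2 x) → FreeAbelianGroup.lift F1 y = FreeAbelianGroup.lift F2 y := by
  classical
  choose S hS using fun y : FreeAbelianGroup X => supp_lift y
  refine ⟨hY.toFinset.biUnion S, fun y hy F1 F2 h => hS y F1 F2 (fun x hx => h x ?_)⟩
  rw [Finset.mem_biUnion]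
  exact ⟨y, hY.mem_toFinset.2 hy, hx⟩

open Classical in
/-- the delta function at `1` -/
noncomputable def dl {H A : Type} [Group H] [AddCommGroup A] (a : A) : H → A :=
  fun z => if z = 1 then a else 0

theorem pair_dl {H A : Type} [Group H] [AddCommGroup A] [Fintype H] (f : H → (A →+ Circ)) (a : A) :
    pair f (dl a) = f 1 a := by
  classical
  unfold dl
  convert pair_delta f a

section key

variable {I : Type u} {H : I → Type} [∀ i, Group (H i)] [∀ i, Fintype (H i)]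
  {A : I → Type} [∀ i, AddCommGroup (A i)]
  {G : Type v} [Group G] {B : Type w} [AddCommGroup B]

/-- the new lift -/
noncomputable def pp (a : ∀ i, B → A i) (p : G → ∀ i, H i) (D : G → B) (g : G) :
    ∀ i, SD (H i) (A i) :=
  fun i => ⟨dl (a i (D g)), p g i⟩

theorem pp_defect (𝓤 : Ultrafilter I) (a : ∀ i, B → A i) (M : Subgroup (∀ i, H i))
    (p : G → ∀ i, H i) (hp : ∀ g h, p g * p h * (p (g * h))⁻¹ ∈ M)
    (ρ : G →* AddMonoid.End B) (D : G → B) (hD : ∀ g h, D (g * h) = D g + ρ g (D h)) (g h : G) :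
    pp a p D g * pp a p D h * (pp a p D (g * h))⁻¹ ∈ MM 𝓤 a M p ρ := by
  classical
  refine ⟨{p g * p h * (p (g * h))⁻¹},
    {FreeAbelianGroup.of (1, D g) + FreeAbelianGroup.of (p g, D h) -
      FreeAbelianGroup.of (1, D (g * h))}, Set.finite_singleton _, ?_, Set.finite_singleton _, ?_, ?_⟩
  · intro t ht
    rw [Set.mem_singleton_iff] at ht
    rw [ht]
    exact hp g h
  · intro y hy
    rw [Set.mem_singleton_iff] at hy
    subst hy
    intro χ _ h2
    have h3 := h2 1 g (D h)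
    rw [one_mul] at h3
    simp only [map_add, map_sub, FreeAbelianGroup.lift_apply_of, h3, hD]
    abel
  · refine Filter.Eventually.of_forall (fun i => ?_)
    have hr : (p g * p h * (p (g * h))⁻¹) i ∈ gen {p g * p h * (p (g * h))⁻¹} i :=
      mem_gen (Set.mem_singleton _) i
    refine ⟨hr, fun f hf hY => ?_⟩
    have e : ((pp a p D g * pp a p D h * (pp a p D (g * h))⁻¹) i).l = fun z =>
        (dl (a i (D g)) z + dl (a i (D h)) ((p g i)⁻¹ * z)) +
        - dl (a i (D (g * h))) (((p g * p h * (p (g * h))⁻¹) i)⁻¹ * z) := by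
      funext z
      show ((pp a p D g i) * (pp a p D h i) * (pp a p D (g * h) i)⁻¹).l z = _
      simp only [SD.mul_l, SD.inv_l, SD.mul_r, pp, Pi.mul_apply, Pi.inv_apply]
      congr 3
      group
    rw [e, pair_add, pair_add, pair_neg, pair_shift_inv f _ _ (fun z => inv_of_gen hf hr z),
      pair_shift, pair_dl, pair_dl, pair_dl, mul_one]
    have h5 := hY _ (Set.mem_singleton _)
    unfold ev at h5
    simp only [map_add, map_sub, FreeAbelianGroup.lift_apply_of, Pi.one_apply] at h5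
    rw [← h5]
    abel

theorem pp_sep (𝓤 : Ultrafilter I) (a : ∀ i, B → A i) (M : Subgroup (∀ i, H i))
    (hN : M.Normal) (hM : GenClosed 𝓤 M)
    (hsep : ∀ (S : Finset B) (χ : B → Circ), ∀ᶠ i in (𝓤 : Filter I),
      ∃ f : A i →+ Circ, ∀ b ∈ S, f (a i b) = χ b)
    (p : G → ∀ i, H i) (hp : ∀ g h, p g * p h * (p (g * h))⁻¹ ∈ M)
    (ρ : G →* AddMonoid.End B) (hρ : ∀ g, p g ∈ M → ρ g = 1)
    (D : G → B) (g : G) (hg : pp a p D g ∈ MM 𝓤 a M p ρ) : D g = 0 := by
  classical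
  obtain ⟨T, Y, hT, hTM, hY, hYK, hev⟩ := hg
  by_contra hne
  obtain ⟨c, hc⟩ := CharacterModule.exists_character_apply_ne_zero_of_ne_zero hne
  -- the homomorphism to the quotient
  let φ : G → (∀ i, H i) ⧸ M := fun g => (p g : (∀ i, H i) ⧸ M)
  have hφ : ∀ g h, φ (g * h) = φ g * φ h := by
    intro g h
    have h1 := (QuotientGroup.eq_one_iff (N := M) _).2 (hp g h)
    rw [QuotientGroup.mk_mul, QuotientGroup.mk_mul, QuotientGroup.mk_inv, mul_inv_eq_one] at h1
    exact h1.symm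
  have hφ1 : φ 1 = 1 := by
    have h1 := hφ 1 1
    rw [one_mul] at h1
    exact (mul_eq_left.1 h1.symm)
  let Φ : G →* (∀ i, H i) ⧸ M := MonoidHom.mk' φ hφ
  have hΦ : ∀ g g', φ g = φ g' → ρ g = ρ g' := by
    intro g g' h
    have h1 : Φ (g * g'⁻¹) = 1 := by
      rw [map_mul, map_inv, mul_inv_eq_one]
      exact h
    have h2 : p (g * g'⁻¹) ∈ M := (QuotientGroup.eq_one_iff (N := M) _).1 h1
    have h3 := hρ _ h2
    have h4 : ρ g = ρ (g * g'⁻¹) * ρ g' := by rw [← map_mul]; congr 1; group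
    rw [h4, h3, one_mul]
  let χ' : (∀ i, H i) ⧸ M → (B →+ Circ) := fun x =>
    if h : ∃ g', φ g' = x then (c : B →+ Circ).comp (ρ (Classical.choose h)) else 0
  have hχ1 : ∀ g', χ' (φ g') = (c : B →+ Circ).comp (ρ g') := by
    intro g'
    have h : ∃ g'', φ g'' = φ g' := ⟨g', rfl⟩
    show (if h : ∃ g'', φ g'' = φ g' then
      (c : B →+ Circ).comp (ρ (Classical.choose h)) else 0) = _
    rw [dif_pos h, hΦ _ _ (Classical.choose_spec h)]
  have hχ2 : ∀ x, (¬ ∃ g', φ g' = x) → χ' x = 0 := by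
    intro x h
    exact dif_neg h
  let χ : (∀ i, H i) → (B →+ Circ) := fun q => χ' (q : (∀ i, H i) ⧸ M)
  have hc2 : ∀ h, ∀ m ∈ M, χ (h * m) = χ h := by
    intro h m hm
    show χ' ((h * m : ∀ i, H i) : (∀ i, H i) ⧸ M) = χ' (h : (∀ i, H i) ⧸ M)
    congr 1
    rw [QuotientGroup.mk_mul, (QuotientGroup.eq_one_iff (N := M) _).2 hm, mul_one]
  have hc2' : ∀ q q0 : ∀ i, H i, q * q0⁻¹ ∈ M → χ q = χ q0 := by
    intro q q0 h
    show χ' (q : (∀ i, H i) ⧸ M) = χ' (q0 : (∀ i, H i) ⧸ M)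
    congr 1
    have h1 := (QuotientGroup.eq_one_iff (N := M) _).2 h
    rwa [QuotientGroup.mk_mul, QuotientGroup.mk_inv, mul_inv_eq_one] at h1
  have hc3 : ∀ h g b, χ (h * p g) b = χ h (ρ g b) := by
    intro h g b
    show χ' ((h * p g : ∀ i, H i) : (∀ i, H i) ⧸ M) b = χ' (h : (∀ i, H i) ⧸ M) (ρ g b)
    rw [QuotientGroup.mk_mul]
    by_cases hh : ∃ g', φ g' = (h : (∀ i, H i) ⧸ M)
    · obtain ⟨g', hg'⟩ := hh
      rw [← hg', hχ1]
      have : φ g' * (p g : (∀ i, H i) ⧸ M) = φ (g' * g) := (hφ g' g).symm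
      rw [this, hχ1, map_mul]
      rfl
    · rw [hχ2 _ hh, hχ2]
      · rfl
      · rintro ⟨g', hg'⟩
        apply hh
        refine ⟨g' * g⁻¹, ?_⟩
        have h1 : Φ (g' * g⁻¹) = Φ g' * (Φ g)⁻¹ := by rw [map_mul, map_inv]
        have h2 : Φ g' = (h : (∀ i, H i) ⧸ M) * Φ g := hg'
        show Φ (g' * g⁻¹) = _
        rw [h1, h2, mul_assoc, mul_inv_cancel, mul_one]
  obtain ⟨Sg, hSg⟩ := supp_lift_set Y hY
  let SP : Finset (∀ i, H i) := insert 1 (Sg.image Prod.fst)
  let SB : Finset B := insert (D g) (Sg.image Prod.snd)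
  have hα : ∀ᶠ i in (𝓤 : Filter I), ∀ q ∈ SP, ∀ q' ∈ SP, q * q'⁻¹ ∉ M →
      q i * (q' i)⁻¹ ∉ gen T i := by
    rw [Filter.eventually_all_finset]
    intro q _
    rw [Filter.eventually_all_finset]
    intro q' _
    by_cases hq : q * q'⁻¹ ∈ M
    · exact Filter.Eventually.of_forall (fun i h => absurd hq h)
    · have : ∀ᶠ i in (𝓤 : Filter I), ¬ (q i * (q' i)⁻¹ ∈ gen T i) := by
        rw [Ultrafilter.eventually_not]
        intro h
        exact hq (hM T hT hTM _ h)
      filter_upwards [this] with i hi _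
      exact hi
  have hβ : ∀ᶠ i in (𝓤 : Filter I), ∀ q ∈ SP, ∃ f : A i →+ Circ, ∀ b ∈ SB,
      f (a i b) = χ q b := by
    rw [Filter.eventually_all_finset]
    intro q _
    exact hsep SB (fun b => χ q b)
  obtain ⟨i, ⟨hi1, hi2⟩, hi3⟩ := ((hα.and hβ).and hev).exists
  choose! Fq hFq using hi2
  let Gs : Set (∀ i, H i) → (A i →+ Circ) := fun S =>
    if h : S.Nonempty then Fq h.some else 0
  let f : H i → (A i →+ Circ) := fun z => Gs {q | q ∈ SP ∧ z * (q i)⁻¹ ∈ gen T i}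
  have hf : ∀ t ∈ T, ∀ z, f (t i * z) = f z := by
    intro t ht z
    show Gs _ = Gs _
    congr 1
    ext q
    refine and_congr_right (fun _ => ?_)
    rw [mul_assoc]
    exact Subgroup.mul_mem_cancel_left _ (mem_gen ht i)
  have hfq : ∀ q ∈ SP, ∀ b ∈ SB, f (q i) (a i b) = χ q b := by
    intro q hq b hb
    have hne' : ({q' | q' ∈ SP ∧ q i * (q' i)⁻¹ ∈ gen T i} : Set (∀ i, H i)).Nonempty :=
      ⟨q, hq, by rw [mul_inv_cancel]; exact one_mem _⟩
    have e : f (q i) = Fq hne'.some := dif_pos hne'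
    have hs := hne'.some_mem
    rw [e, hFq _ hs.1 b hb]
    have : q * hne'.some⁻¹ ∈ M := by
      by_contra hcon
      exact hi1 q hq _ hs.1 hcon hs.2
    rw [hc2' _ _ this]
  have h1 := hi3.2 f hf (by
    intro y hy
    have h2 := hSg y hy (fun x => f (x.1 i) (a i x.2)) (fun x => χ x.1 x.2) (by
      intro x hx
      exact hfq x.1 (Finset.mem_insert_of_mem (Finset.mem_image_of_mem _ hx)) x.2
        (Finset.mem_insert_of_mem (Finset.mem_image_of_mem _ hx)))
    unfold ev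
    rw [h2]
    exact hYK hy χ hc2 hc3)
  have h3 : pair f (dl (a i (D g))) = f 1 (a i (D g)) := pair_dl f _
  have h4 : f 1 (a i (D g)) = χ 1 (D g) :=
    hfq 1 (Finset.mem_insert_self _ _) (D g) (Finset.mem_insert_self _ _)
  have h5 : χ 1 (D g) = c (D g) := by
    show χ' ((1 : ∀ i, H i) : (∀ i, H i) ⧸ M) (D g) = _
    have : ((1 : ∀ i, H i) : (∀ i, H i) ⧸ M) = φ 1 := hφ1.symm
    rw [this, hχ1, map_one]
    rfl
  apply hc
  rw [← h5, ← h4, ← h3]
  exact h1

end key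

end Pool.Agent.Helper202WS
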