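import Mathlib

/-!
The word argument for a group generated by two subgroups.
-/

set_option linter.unusedSectionVars false

open Subgroup Pointwise

namespace Pool.Agent.Helper202WS

section

variable {G : Type*} [Group G]

/-- products of the first `k` terms of a sequence -/
def pr (s : ℕ → G) : ℕ → G
  | 0 => 1
  | k + 1 => pr s k * s k

theorem pr_congr {s s' : ℕ → G} {n : ℕ} (h : ∀ i, i < n → s i = s' i) : pr s n = pr s' n := by
  induction n with
  | zero => rfl
  | succ n ih =>
    show pr s n * s n = pr s' n * s' n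
    rw [ih (fun i hi => h i (by omega)), h n (by omega)]

theorem exists_seq {Y : Set G} (n : ℕ) {g : G} (hg : g ∈ Y ^ n) :
    ∃ s : ℕ → G, (∀ i, i < n → s i ∈ Y) ∧ pr s n = g := by
  induction n generalizing g with
  | zero =>
    refine ⟨fun _ => 1, fun i hi => absurd hi (by omega), ?_⟩
    rw [pow_zero, Set.mem_one] at hg
    exact hg.symm
  | succ n ih =>
    rw [pow_succ] at hg
    obtain ⟨g', hg', y, hy, rfl⟩ := Set.mem_mul.1 hg
    obtain ⟨s, hs, hsg⟩ := ih hg'
    refine ⟨fun i => if i < n then s i else y, ?_, ?_⟩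
    · intro i hi
      by_cases hin : i < n
      · simp only [hin, if_true]
        exact hs i hin
      · simp only [hin, if_false]
        exact hy
    · show pr _ n * _ = _
      have h1 : pr (fun i => if i < n then s i else y) n = pr s n :=
        pr_congr (fun i hi => by simp [hi])
      rw [h1, hsg]
      simp

theorem pr_mem {Y : Set G} {s : ℕ → G} {n : ℕ} (hs : ∀ i, i < n → s i ∈ Y) {p q : ℕ}
    (hpq : p ≤ q) (hq : q ≤ n) : (pr s p)⁻¹ * pr s q ∈ Y ^ (q - p) := by
  induction q, hpq using Nat.le_induction with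
  | base => simp
  | succ q hpq ih =>
    have h1 : q + 1 - p = (q - p) + 1 := by omega
    rw [h1, pow_succ]
    refine Set.mem_mul.2 ⟨_, ih (by omega), s q, hs q (by omega), ?_⟩
    show _ = (pr s p)⁻¹ * (pr s q * s q)
    rw [mul_assoc]

theorem pr_sub {A : Subgroup G} {s : ℕ → G} {n : ℕ} (hs : ∀ i, i < n → s i ∈ A) :
    pr s n ∈ A := by
  induction n with
  | zero => exact one_mem _
  | succ n ih => exact mul_mem (ih (fun i hi => hs i (by omega))) (hs n (by omega))

theorem pow_sub {A : Subgroup G} {Y : Set G} (hY : Y ⊆ A) (n : ℕ) {g : G} (hg : g ∈ Y ^ n) :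
    g ∈ A := by
  obtain ⟨s, hs, rfl⟩ := exists_seq n hg
  exact pr_sub (fun i hi => hY (hs i hi))

theorem amalgam {X : Type*} [MulAction G X] (e : X)
    (R A B C : Subgroup G) (hCA : C ≤ A) (hCB : C ≤ B)
    (hA : ∀ g ∈ A, g ∈ R → g = 1) (hB : ∀ g ∈ B, g ∈ R → g = 1)
    (D : G → X → ZMod 2) (hD : ∀ g h x, D (g * h) x = D g x + D h (g⁻¹ • x))
    (hDA : ∀ a ∈ A, ∀ x, D a x = 0)
    (hDB : ∀ b ∈ B, ∀ x, (x ≠ e → x ≠ b • e → D b x = 0) ∧ (x = e → x ≠ b • e → D b x = 1) ∧
      (x ≠ e → x = b • e → D b x = 1))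
    (hDR : ∀ r ∈ R, ∀ x, D r x = 0)
    (hst : ∀ s ∈ A ⊔ B, s • e = e → ∃ c ∈ C, s * c⁻¹ ∈ R) :
    ∀ g ∈ A ⊔ B, g ∈ R → g = 1 := by
  classical
  set Y : Set G := (A : Set G) ∪ (B : Set G) with hYdef
  have hYsub : Y ⊆ (A ⊔ B : Subgroup G) := by
    rintro y (hy | hy)
    · exact (le_sup_left : A ≤ A ⊔ B) hy
    · exact (le_sup_right : B ≤ A ⊔ B) hy
  have hYr : ∀ y ∈ Y, ∀ c ∈ C, y * c ∈ Y := by
    rintro y (hy | hy) c hc
    · exact Or.inl (mul_mem hy (hCA hc))
    · exact Or.inr (mul_mem hy (hCB hc))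
  have hYl : ∀ y ∈ Y, ∀ c ∈ C, c * y ∈ Y := by
    rintro y (hy | hy) c hc
    · exact Or.inl (mul_mem (hCA hc) hy)
    · exact Or.inr (mul_mem (hCB hc) hy)
  have hpr : ∀ (k : ℕ) (u : G), u ∈ Y ^ (k + 1) → ∀ c ∈ C, u * c ∈ Y ^ (k + 1) := by
    intro k u hu c hc
    rw [pow_succ] at hu ⊢
    obtain ⟨u', hu', y, hy, rfl⟩ := Set.mem_mul.1 hu
    exact Set.mem_mul.2 ⟨u', hu', y * c, hYr y hy c hc, by rw [mul_assoc]⟩
  have hpl : ∀ (k : ℕ) (u : G), u ∈ Y ^ (k + 1) → ∀ c ∈ C, c * u ∈ Y ^ (k + 1) := by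
    intro k u hu c hc
    rw [pow_succ'] at hu ⊢
    obtain ⟨y, hy, u', hu', rfl⟩ := Set.mem_mul.1 hu
    exact Set.mem_mul.2 ⟨c * y, hYl y hy c hc, u', hu', by rw [mul_assoc]⟩
  have main : ∀ n : ℕ, ∀ g ∈ Y ^ n, g ∈ R → g = 1 := by
    intro n
    induction n using Nat.strong_induction_on with
    | _ n ih =>
    intro g hg hgR
    by_contra hg1
    obtain ⟨s, hs, rfl⟩ := exists_seq n hg
    have hdist : ∀ p q, p < q → q ≤ n → (0 < p ∨ q < n) → pr s p • e ≠ pr s q • e := by
      intro p q hpq hqn hor heq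
      have hw : (pr s p)⁻¹ * pr s q ∈ Y ^ (q - p) := pr_mem hs hpq.le hqn
      have hwe : ((pr s p)⁻¹ * pr s q) • e = e := by
        rw [mul_smul, ← heq, inv_smul_smul]
      obtain ⟨c, hc, hcR⟩ := hst _ (pow_sub hYsub _ hw) hwe
      have hw1 : (pr s p)⁻¹ * pr s q * c⁻¹ ∈ Y ^ (q - p) := by
        obtain ⟨k, hk⟩ : ∃ k, q - p = k + 1 := ⟨q - p - 1, by omega⟩
        rw [hk] at hw ⊢
        exact hpr k _ hw _ (inv_mem hc)
      have hw2 := ih (q - p) (by omega) _ hw1 hcR
      rw [mul_inv_eq_one] at hw2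
      have hsplit : pr s n = ((pr s 0)⁻¹ * pr s p) * c * ((pr s q)⁻¹ * pr s n) := by
        rw [← hw2]
        show _ = ((1 : G)⁻¹ * pr s p) * _ * _
        group
      have h1 : (pr s 0)⁻¹ * pr s p ∈ Y ^ p := by
        have := pr_mem hs (Nat.zero_le p) (by omega)
        rwa [Nat.sub_zero] at this
      have h2 : (pr s q)⁻¹ * pr s n ∈ Y ^ (n - q) := pr_mem hs hqn le_rfl
      have h3 : pr s n ∈ Y ^ (p + (n - q)) := by
        rw [pow_add]
        rcases hor with hp | hq
        · obtain ⟨k, hk⟩ : ∃ k, p = k + 1 := ⟨p - 1, by omega⟩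
          have h4 : (pr s 0)⁻¹ * pr s p * c ∈ Y ^ p := by
            have : (pr s 0)⁻¹ * pr s p ∈ Y ^ (k + 1) := by rw [← hk]; exact h1
            have h5 := hpr k _ this c hc
            rwa [← hk] at h5
          rw [hsplit]
          exact Set.mul_mem_mul h4 h2
        · obtain ⟨k, hk⟩ : ∃ k, n - q = k + 1 := ⟨n - q - 1, by omega⟩
          have h4 : c * ((pr s q)⁻¹ * pr s n) ∈ Y ^ (n - q) := by
            rw [hk] at h2 ⊢
            exact hpl k _ h2 c hc
          rw [hsplit, mul_assoc]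
          exact Set.mul_mem_mul h1 h4
      exact hg1 (ih (p + (n - q)) (by omega) _ h3 hgR)
    have hdist' : ∀ i j, i ≤ n → 0 < j → j < n → (pr s j • e = pr s i • e ↔ i = j) := by
      intro i j hi hj hjn
      constructor
      · intro h
        rcases lt_trichotomy i j with hij | hij | hij
        · exact absurd h.symm (hdist i j hij hjn.le (Or.inr hjn))
        · exact hij
        · exact absurd h (hdist j i hij hi (Or.inl hj))
      · rintro rfl
        rfl
    have hD1 : ∀ x, D 1 x = 0 := by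
      intro x
      have := hD 1 1 x
      rw [one_mul, inv_one, one_smul] at this
      simpa using this
    have hsum : ∀ (k : ℕ) (x : X), D (pr s k) x =
        ∑ i ∈ Finset.range k, D (s i) ((pr s i)⁻¹ • x) := by
      intro k x
      induction k with
      | zero => exact hD1 x
      | succ k ihk =>
        rw [Finset.sum_range_succ, ← ihk]
        exact hD _ _ _
    have hterm : ∀ i j, i < n → 0 < j → j < n → D (s i) ((pr s i)⁻¹ • (pr s j • e)) =
        (if i = j then (if s i ∈ A then 0 else 1) else 0) +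
        (if i + 1 = j then (if s i ∈ A then 0 else 1) else 0) := by
      intro i j hi hj hjn
      by_cases hsA : s i ∈ A
      · rw [hDA _ hsA]
        simp [hsA]
      · have hsB : s i ∈ B := by
          rcases hs i hi with h | h
          · exact absurd h hsA
          · exact h
        have e1 : (pr s i)⁻¹ • (pr s j • e) = e ↔ i = j := by
          rw [inv_smul_eq_iff]
          exact hdist' i j hi.le hj hjn
        have e2 : (pr s i)⁻¹ • (pr s j • e) = s i • e ↔ i + 1 = j := by
          rw [inv_smul_eq_iff, ← mul_smul]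
          exact hdist' (i + 1) j hi hj hjn
        have h3 := hDB _ hsB ((pr s i)⁻¹ • (pr s j • e))
        simp only [Ne, e1, e2] at h3
        obtain ⟨h4, h5, h6⟩ := h3
        by_cases c1 : i = j
        · have c2 : ¬ i + 1 = j := by omega
          rw [h5 c1 c2, if_pos c1, if_neg c2, if_neg hsA, add_zero]
        · by_cases c2 : i + 1 = j
          · rw [h6 c1 c2, if_neg c1, if_pos c2, if_neg hsA, zero_add]
          · rw [h4 c1 c2, if_neg c1, if_neg c2, add_zero]
    have hadj : ∀ j, j + 1 < n → (s (j + 1) ∈ A ↔ s j ∈ A) := by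
      intro j hj
      have h1 := hsum n (pr s (j + 1) • e)
      rw [hDR _ hgR, Finset.sum_congr rfl (fun i hi => hterm i (j + 1)
        (Finset.mem_range.1 hi) (by omega) hj), Finset.sum_add_distrib,
        Finset.sum_ite_eq'] at h1
      simp only [Finset.mem_range, hj, if_true, add_left_inj] at h1
      rw [Finset.sum_ite_eq'] at h1
      simp only [Finset.mem_range, show j < n by omega, if_true] at h1
      by_cases c1 : s (j + 1) ∈ A <;> by_cases c2 : s j ∈ A <;> simp [c1, c2] at h1 ⊢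
    have hall : ∀ j, j < n → (s j ∈ A ↔ s 0 ∈ A) := by
      intro j
      induction j with
      | zero => intro _; rfl
      | succ j ihj =>
        intro hj
        rw [hadj j hj]
        exact ihj (by omega)
    by_cases h0 : s 0 ∈ A
    · exact hg1 (hA _ (pr_sub (fun i hi => (hall i hi).2 h0)) hgR)
    · refine hg1 (hB _ (pr_sub (fun i hi => ?_)) hgR)
      rcases hs i hi with h | h
      · exact absurd ((hall i hi).1 h) h0
      · exact h
  intro g hg hgR
  have hYinv : Y⁻¹ = Y := by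
    ext y
    simp [hYdef]
  have hmem : ∃ n, g ∈ Y ^ n := by
    rw [Subgroup.sup_eq_closure] at hg
    clear hgR
    induction hg using Subgroup.closure_induction with
    | mem x hx => exact ⟨1, by rw [pow_one]; exact hx⟩
    | one => exact ⟨0, by simp⟩
    | mul x y _ _ ihx ihy =>
      obtain ⟨n, hn⟩ := ihx
      obtain ⟨m, hm⟩ := ihy
      exact ⟨n + m, by rw [pow_add]; exact Set.mul_mem_mul hn hm⟩
    | inv x _ ihx =>
      obtain ⟨n, hn⟩ := ihx
      refine ⟨n, ?_⟩
      have : x⁻¹ ∈ (Y ^ n)⁻¹ := Set.inv_mem_inv.2 hn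
      rwa [← inv_pow, hYinv] at this
  obtain ⟨n, hn⟩ := hmem
  exact main n g hn hgR

end

end Pool.Agent.Helper202WS
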