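import Pool.Agent.Helper202_WS.Rad
import Pool.Agent.Helper202_WS.Words
import Pool.Agent.Helper202_WS.GP

/-!
Graph products of subgroup weakly sofic groups.
-/

set_option linter.unusedSectionVars false

open Subgroup

namespace Pool.Agent.Helper202WS

universe u v w

/-- functions on a `G`-set with values in `ZMod 2`, extended by `G` -/
@[ext]
structure WD (G X : Type u) where
  l : X → ZMod 2
  r : G

namespace WD

variable {G X : Type u} [Group G] [MulAction G X]

instance : Mul (WD G X) := ⟨fun x y => ⟨fun z => x.l z + y.l (x.r⁻¹ • z), x.r * y.r⟩⟩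
instance : One (WD G X) := ⟨⟨fun _ => 0, 1⟩⟩
instance : Inv (WD G X) := ⟨fun x => ⟨fun z => - x.l (x.r • z), x.r⁻¹⟩⟩

theorem mul_l (x y : WD G X) : (x * y).l = fun z => x.l z + y.l (x.r⁻¹ • z) := rfl
theorem mul_r (x y : WD G X) : (x * y).r = x.r * y.r := rfl
theorem one_l : (1 : WD G X).l = fun _ => 0 := rfl
theorem one_r : (1 : WD G X).r = 1 := rfl
theorem inv_l (x : WD G X) : (x⁻¹).l = fun z => - x.l (x.r • z) := rfl
theorem inv_r (x : WD G X) : (x⁻¹).r = x.r⁻¹ := rfl

instance : Group (WD G X) where
  mul_assoc a b c := by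
    ext z
    · simp [mul_l, mul_r, add_assoc, mul_smul]
    · simp [mul_r, mul_assoc]
  one_mul a := by
    ext z
    · simp [mul_l, one_l, one_r]
    · simp [mul_r, one_r]
  mul_one a := by
    ext z
    · simp [mul_l, one_l]
    · simp [mul_r, one_r]
  inv_mul_cancel a := by
    ext z
    · show - a.l (a.r • z) + a.l ((a.r⁻¹)⁻¹ • z) = 0
      rw [inv_inv]
      exact neg_add_cancel _
    · simp [mul_r, one_r, inv_r]

/-- the section -/
def inr : G →* WD G X where
  toFun g := ⟨fun _ => 0, g⟩
  map_one' := rfl
  map_mul' g h := by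
    ext z
    · simp [mul_l]
    · rfl

/-- the projection -/
def right : WD G X →* G where
  toFun x := x.r
  map_one' := rfl
  map_mul' _ _ := rfl

open Classical in
/-- the indicator of the point `e` -/
noncomputable def t (G : Type u) {X : Type u} [Group G] (e : X) : WD G X :=
  ⟨fun z => if z = e then 1 else 0, 1⟩

/-- conjugate of the section -/
noncomputable def ct (e : X) : G →* WD G X := (MulAut.conj (t G e)).toMonoidHom.comp inr

open Classical in
theorem ct_l (e : X) (g : G) (z : X) :
    (ct e g : WD G X).l z = (if z = e then 1 else 0) - (if z = g • e then 1 else 0) := by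
  have h : (ct e g : WD G X) = t G e * inr g * (t G e)⁻¹ := rfl
  rw [h]
  simp only [mul_l, mul_r, inv_l, t, inr, MonoidHom.coe_mk, OneHom.coe_mk, one_smul, one_mul,
    add_zero, inv_smul_eq_iff]
  rw [sub_eq_add_neg]

theorem ct_r (e : X) (g : G) : (ct e g : WD G X).r = g := by
  have h : (ct e g : WD G X) = t G e * inr g * (t G e)⁻¹ := rfl
  rw [h]
  simp [mul_r, inv_r, t, inr]

theorem ct_l_cases (e : X) (b : G) (x : X) :
    (x ≠ e → x ≠ b • e → (ct e b : WD G X).l x = 0) ∧
      (x = e → x ≠ b • e → (ct e b : WD G X).l x = 1) ∧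
      (x ≠ e → x = b • e → (ct e b : WD G X).l x = 1) := by
  classical
  refine ⟨fun h2 h3 => ?_, fun h2 h3 => ?_, fun h2 h3 => ?_⟩
  · rw [ct_l, if_neg h2, if_neg h3, sub_zero]
  · rw [ct_l, if_pos h2, if_neg h3, sub_zero]
  · rw [ct_l, if_neg h2, if_pos h3]
    decide

theorem ct_eq_inr (e : X) (g : G) (h : g • e = e) : (ct e g : WD G X) = inr g := by
  classical
  ext z
  · rw [ct_l, h, sub_self]
    rfl
  · rw [ct_r]
    rfl

end WD

section

variable {V : Type u} (X : SimpleGraph V) (Γ : V → Type u) [∀ v, Group (Γ v)]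

open GP

/-- the action of `P` on functions on a `P`-set -/
def rho (G Y : Type u) [Group G] [MulAction G Y] : G →* AddMonoid.End (Y → ZMod 2) where
  toFun g :=
    { toFun := fun f x => f (g⁻¹ • x)
      map_zero' := rfl
      map_add' := fun _ _ => rfl }
  map_one' := by
    ext f x
    show f ((1 : G)⁻¹ • x) = f x
    rw [inv_one, one_smul]
  map_mul' g h := by
    ext f x
    show f ((g * h)⁻¹ • x) = f (h⁻¹ • g⁻¹ • x)
    rw [mul_inv_rev, mul_smul]

theorem rad_sub (hΓ : ∀ v, SubgroupWeaklySofic (Γ v)) (W : Finset V) :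
    ∀ g ∈ sub X Γ (W : Set V), g ∈ rad (GraphProduct X Γ) → g = 1 := by
  classical
  induction W using Finset.induction_on with
  | empty =>
    intro g hg _
    have : sub X Γ ((∅ : Finset V) : Set V) ≤ ⊥ := by
      apply sub_le
      intro v hv
      simp at hv
    exact (Subgroup.mem_bot).1 (this hg)
  | insert v W hvW ih =>
    set L : Set V := {u | u ∈ W ∧ X.Adj v u} with hLdef
    have hLadj : ∀ u ∈ L, X.Adj v u := fun u hu => hu.2
    have hvL : v ∉ L := fun h => hvW h.1
    have hLW : L ⊆ (W : Set V) := fun u hu => hu.1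
    set R := rad (GraphProduct X Γ) with hRdef
    set N : Set V := {u | X.Adj v u} with hNdef
    set C' : Subgroup (GraphProduct X Γ) := sub X Γ N ⊔ R with hC'def
    set e : GraphProduct X Γ ⧸ C' := ((1 : GraphProduct X Γ) : GraphProduct X Γ ⧸ C') with hedef
    have hfix : ∀ s : GraphProduct X Γ, s • e = e ↔ s ∈ C' := by
      intro s
      have h1 : s • e = ((s * 1 : GraphProduct X Γ) : GraphProduct X Γ ⧸ C') := rfl
      rw [h1, mul_one, hedef, eq_comm, QuotientGroup.eq, inv_one, one_mul]
    have hfixN : ∀ s ∈ sub X Γ N, s • e = e := fun s hs =>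
      (hfix s).2 ((le_sup_left : sub X Γ N ≤ C') hs)
    -- the homomorphism
    let Ψ : GraphProduct X Γ →* WD (GraphProduct X Γ) (GraphProduct X Γ ⧸ C') :=
      GP.lift (fun u => if u = v then (WD.ct e).comp (ι X Γ u) else WD.inr.comp (ι X Γ u)) (by
        intro u w h a b
        by_cases hu : u = v
        · have hw : ¬ w = v := fun hw => absurd h (by rw [hu, hw]; exact X.irrefl)
          have hb : (WD.ct e (ι X Γ w b) : WD _ (GraphProduct X Γ ⧸ C')) =
              WD.inr (ι X Γ w b) :=
            WD.ct_eq_inr e _ (hfixN _ (ι_mem (W := N) (show X.Adj v w from hu ▸ h) b))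
          simp only [hu, hw, if_true, if_false, MonoidHom.comp_apply]
          rw [← hb, ← map_mul, ← map_mul]
          subst hu
          rw [ι_comm h a b]
        · by_cases hw : w = v
          · have hb : (WD.ct e (ι X Γ u a) : WD _ (GraphProduct X Γ ⧸ C')) =
                WD.inr (ι X Γ u a) :=
              WD.ct_eq_inr e _ (hfixN _ (ι_mem (W := N) (show X.Adj v u from hw ▸ h.symm) a))
            simp only [hu, hw, if_true, if_false, MonoidHom.comp_apply]
            rw [← hb, ← map_mul, ← map_mul]
            subst hw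
            rw [ι_comm h a b]
          · simp only [hu, hw, if_false, MonoidHom.comp_apply]
            rw [← map_mul, ← map_mul, ι_comm h a b])
    have hΨv : ∀ a : Γ v, Ψ (ι X Γ v a) = WD.ct e (ι X Γ v a) := by
      intro a
      show GP.lift _ _ _ = _
      rw [lift_ι]
      simp
    have hΨu : ∀ u, u ≠ v → ∀ a : Γ u, Ψ (ι X Γ u a) = WD.inr (ι X Γ u a) := by
      intro u hu a
      show GP.lift _ _ _ = _
      rw [lift_ι]
      simp [hu]
    have hΨr : ∀ g, (Ψ g).r = g := by
      have : WD.right.comp Ψ = MonoidHom.id _ := by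
        apply hom_ext
        intro u a
        by_cases hu : u = v
        · subst hu
          show (Ψ (ι X Γ u a)).r = _
          rw [hΨv, WD.ct_r]
          rfl
        · show (Ψ (ι X Γ u a)).r = _
          rw [hΨu u hu]
          rfl
      intro g
      exact DFunLike.congr_fun this g
    let D : GraphProduct X Γ → (GraphProduct X Γ ⧸ C') → ZMod 2 := fun g => (Ψ g).l
    have hD : ∀ g h x, D (g * h) x = D g x + D h (g⁻¹ • x) := by
      intro g h x
      show (Ψ (g * h)).l x = _
      rw [map_mul, WD.mul_l, hΨr]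
    have hA : ∀ g ∈ sub X Γ (W : Set V), Ψ g = WD.inr g := by
      have : sub X Γ (W : Set V) ≤ MonoidHom.eqLocus Ψ WD.inr := by
        apply sub_le
        intro u hu a
        exact hΨu u (fun h => hvW (h ▸ hu)) a
      intro g hg
      exact this hg
    have hB : ∀ g ∈ sub X Γ (insert v L), Ψ g = WD.ct e g := by
      have : sub X Γ (insert v L) ≤ MonoidHom.eqLocus Ψ (WD.ct e) := by
        apply sub_le
        intro u hu a
        show Ψ _ = WD.ct e _
        rcases hu with rfl | hu
        · exact hΨv a
        · rw [hΨu u (fun h => hvL (h ▸ hu)) a]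
          exact (WD.ct_eq_inr e _ (hfixN _ (ι_mem (W := N) (hLadj u hu) a))).symm
      intro g hg
      exact this hg
    have hRC : R ≤ C' := le_sup_right
    have hDR : ∀ r ∈ R, ∀ x, D r x = 0 := by
      intro r hr x
      have := deriv_rad (quot_rad (GraphProduct X Γ)) (QuotientGroup.mk' (rad (GraphProduct X Γ)))
        (rho (GraphProduct X Γ) (GraphProduct X Γ ⧸ C')) (by
          intro g hg
          have hg' : g ∈ R := (QuotientGroup.eq_one_iff g).1 hg
          ext f x
          obtain ⟨y, rfl⟩ := QuotientGroup.mk_surjective x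
          show f (g⁻¹ • ((y : GraphProduct X Γ) : GraphProduct X Γ ⧸ C')) = f y
          congr 1
          show ((g⁻¹ * y : GraphProduct X Γ) : GraphProduct X Γ ⧸ C') = y
          rw [QuotientGroup.eq]
          have h1 : (g⁻¹ * y)⁻¹ * y = y⁻¹ * g * y⁻¹⁻¹ := by group
          rw [h1]
          exact hRC ((inferInstance : R.Normal).conj_mem g hg' y⁻¹)) D (by
          intro g h
          funext x
          exact hD g h x) hr
      exact congrFun this x
    have hsup : sub X Γ ((insert v W : Finset V) : Set V) ≤
        sub X Γ (W : Set V) ⊔ sub X Γ (insert v L) := by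
      apply sub_le
      intro u hu a
      rw [Finset.coe_insert] at hu
      rcases hu with rfl | hu
      · exact (le_sup_right : sub X Γ (insert u L) ≤ _) (ι_mem (Set.mem_insert _ _) a)
      · exact (le_sup_left : sub X Γ (W : Set V) ≤ _) (ι_mem hu a)
    have hsup' : sub X Γ (W : Set V) ⊔ sub X Γ (insert v L) ≤
        sub X Γ ((insert v W : Finset V) : Set V) := by
      apply sup_le
      · exact sub_mono (by rw [Finset.coe_insert]; exact Set.subset_insert _ _)
      · apply sub_mono
        rw [Finset.coe_insert]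
        exact Set.insert_subset_insert hLW
    intro g hg hgR
    refine amalgam e R (sub X Γ (W : Set V)) (sub X Γ (insert v L)) (sub X Γ L)
      (sub_mono hLW) (sub_mono (Set.subset_insert _ _)) ih ?_ D hD ?_ ?_ hDR ?_ g (hsup hg) hgR
    · intro b hb hbR
      have h1 := split hLadj hb
      have h2 : ret X Γ L b = 1 := by
        apply ih _ (sub_mono (Set.inter_subset_right.trans hLW) (ret_mem hb))
        exact map_rad _ hbR
      have h3 : proj X Γ v b = 1 := mem_rad hbR (hΓ v) _
      rw [h2, h3, map_one, mul_one] at h1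
      exact h1
    · intro a ha x
      show (Ψ a).l x = 0
      rw [hA a ha]
      rfl
    · intro b hb x
      have h1 : D b x = (WD.ct e b : WD _ (GraphProduct X Γ ⧸ C')).l x := by
        show (Ψ b).l x = _
        rw [hB b hb]
      rw [h1]
      exact WD.ct_l_cases e b x
    · intro s hs hse
      have h1 : s ∈ C' := (hfix s).1 hse
      obtain ⟨c, hc, r, hr, hcr⟩ := Subgroup.mem_sup_of_normal_right.1 h1
      have h2 : ret X Γ ((insert v W : Finset V) : Set V) s = s := ret_id (hsup' hs)
      have h3 : N ∩ ((insert v W : Finset V) : Set V) ⊆ L := by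
        rintro u ⟨hu1, hu2⟩
        rw [Finset.coe_insert] at hu2
        rcases hu2 with rfl | hu2
        · exact absurd hu1 X.irrefl
        · exact ⟨hu2, hu1⟩
      refine ⟨ret X Γ ((insert v W : Finset V) : Set V) c, sub_mono h3 (ret_mem hc), ?_⟩
      rw [← h2, ← hcr, map_mul]
      exact (inferInstance : R.Normal).conj_mem _ (map_rad _ hr) _

/-- Graph products of subgroup weakly sofic groups are subgroup weakly sofic. -/
theorem graphProduct_sws (hΓ : ∀ v, SubgroupWeaklySofic (Γ v)) :
    SubgroupWeaklySofic (GraphProduct X Γ) := by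
  apply of_rad
  intro g hg
  obtain ⟨W, hW⟩ := exists_finite g
  exact rad_sub X Γ hΓ W g hW hg

end

end Pool.Agent.Helper202WS
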