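import Pool.Agent.Helper202_WS.Defs

/-!
A bi-invariant metric with the subgroup inequality from a conjugation invariant set.
-/

open Filter Subgroup

namespace Pool.Agent.Helper202WS

universe u v

section

variable {H : Type} [Group H] (Δ : Set H) (n : ℕ)

def Pr (j : ℕ) (x : H) : Prop :=
  n ≤ j ∨ ∃ L : List H, L.length ≤ j ∧ (∀ y ∈ L, y ∈ Δ) ∧ x ∈ Subgroup.closure {y | y ∈ L}

theorem Pr.mono {j j' : ℕ} (h : j ≤ j') {x : H} (hx : Pr Δ n j x) : Pr Δ n j' x := by
  rcases hx with hx | ⟨L, h1, h2⟩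
  · exact Or.inl (hx.trans h)
  · exact Or.inr ⟨L, h1.trans h, h2⟩

theorem exists_Pr (x : H) : ∃ j, Pr Δ n j x := ⟨n, Or.inl le_rfl⟩

open Classical in
noncomputable def kl (x : H) : ℕ := Nat.find (exists_Pr Δ n x)

theorem kl_spec (x : H) : Pr Δ n (kl Δ n x) x := by
  classical
  exact Nat.find_spec (exists_Pr Δ n x)

theorem kl_le {x : H} {j : ℕ} (h : Pr Δ n j x) : kl Δ n x ≤ j := by
  classical
  exact Nat.find_min' _ h

theorem kl_one : kl Δ n (1 : H) = 0 := by
  apply Nat.le_zero.1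
  apply kl_le
  exact Or.inr ⟨[], le_rfl, by simp, one_mem _⟩

theorem eq_one_of_kl (hn : 0 < n) {x : H} (h : kl Δ n x = 0) : x = 1 := by
  have h1 := kl_spec Δ n x
  rw [h] at h1
  rcases h1 with h1 | ⟨L, h1, _, h3⟩
  · omega
  · have h4 : L = [] := List.length_eq_zero_iff.1 (Nat.le_zero.1 h1)
    subst h4
    simpa using h3

theorem kl_gen (S : Finset H) {x : H} (hx : x ∈ Subgroup.closure (S : Set H)) :
    kl Δ n x ≤ ∑ s ∈ S, kl Δ n s := by
  classical
  apply kl_le
  have key : ∀ S : Finset H, n ≤ ∑ s ∈ S, kl Δ n s ∨ ∃ L : List H, L.length ≤ ∑ s ∈ S, kl Δ n s ∧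
      (∀ y ∈ L, y ∈ Δ) ∧ ∀ s ∈ S, s ∈ Subgroup.closure {y | y ∈ L} := by
    intro S
    induction S using Finset.induction_on with
    | empty => exact Or.inr ⟨[], by simp, by simp, by simp⟩
    | insert a S ha ih =>
      rw [Finset.sum_insert ha]
      rcases ih with ih | ⟨L, h1, h2, h3⟩
      · left; omega
      · rcases kl_spec Δ n a with h4 | ⟨L', h4, h5, h6⟩
        · left; omega
        · right
          refine ⟨L' ++ L, ?_, ?_, ?_⟩
          · rw [List.length_append]; omega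
          · intro y hy
            rcases List.mem_append.1 hy with hy | hy
            · exact h5 y hy
            · exact h2 y hy
          · intro s hs
            rcases Finset.mem_insert.1 hs with rfl | hs
            · exact Subgroup.closure_mono (fun y hy => List.mem_append_left _ hy) h6
            · exact Subgroup.closure_mono (fun y hy => List.mem_append_right _ hy) (h3 s hs)
  rcases key S with h1 | ⟨L, h1, h2, h3⟩
  · exact Or.inl h1
  · right
    refine ⟨L, h1, h2, ?_⟩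
    have h4 : Subgroup.closure (S : Set H) ≤ Subgroup.closure {y | y ∈ L} :=
      (Subgroup.closure_le _).2 (fun s hs => h3 s hs)
    exact h4 hx

theorem kl_inv (x : H) : kl Δ n x⁻¹ = kl Δ n x := by
  have key : ∀ x : H, kl Δ n x⁻¹ ≤ kl Δ n x := by
    intro x
    have := kl_gen Δ n {x} (x := x⁻¹) (inv_mem (Subgroup.subset_closure (by simp)))
    simpa using this
  apply le_antisymm (key x)
  have := key x⁻¹
  rwa [inv_inv] at this

theorem kl_mul (x y : H) : kl Δ n (x * y) ≤ kl Δ n x + kl Δ n y := by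
  classical
  have h := kl_gen Δ n {x, y} (x := x * y)
    (mul_mem (Subgroup.subset_closure (by simp)) (Subgroup.subset_closure (by simp)))
  by_cases hxy : x = y
  · subst hxy
    simp only [Finset.mem_singleton, Finset.insert_eq_of_mem, Finset.sum_singleton] at h
    omega
  · rwa [Finset.sum_pair hxy] at h

theorem kl_conj (hΔ : ∀ y ∈ Δ, ∀ c, c * y * c⁻¹ ∈ Δ) (c x : H) :
    kl Δ n (c * x * c⁻¹) = kl Δ n x := by
  have key : ∀ c x : H, kl Δ n (c * x * c⁻¹) ≤ kl Δ n x := by
    intro c x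
    apply kl_le
    rcases kl_spec Δ n x with h | ⟨L, h1, h2, h3⟩
    · exact Or.inl h
    · right
      refine ⟨L.map (fun y => c * y * c⁻¹), ?_, ?_, ?_⟩
      · rwa [List.length_map]
      · intro y hy
        obtain ⟨z, hz, rfl⟩ := List.mem_map.1 hy
        exact hΔ z (h2 z hz) c
      · have h4 : (MulAut.conj c).toMonoidHom x ∈
            (Subgroup.closure {y | y ∈ L}).map (MulAut.conj c).toMonoidHom :=
          Subgroup.mem_map_of_mem _ h3
        rw [MonoidHom.map_closure] at h4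
        have h5 : ((MulAut.conj c).toMonoidHom '' {y | y ∈ L}) ⊆
            {y | y ∈ L.map (fun y => c * y * c⁻¹)} := by
          rintro _ ⟨z, hz, rfl⟩
          exact List.mem_map.2 ⟨z, hz, by simp [MulAut.conj_apply]⟩
        have h6 := Subgroup.closure_mono h5 h4
        simpa [MulAut.conj_apply] using h6
  apply le_antisymm (key c x)
  have := key c⁻¹ (c * x * c⁻¹)
  have e : c⁻¹ * (c * x * c⁻¹) * c⁻¹⁻¹ = x := by group
  rwa [e] at this

theorem exists_metric (hΔ : ∀ y ∈ Δ, ∀ c, c * y * c⁻¹ ∈ Δ) (hn : 0 < n) :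
    ∃ d : H → H → ℝ, IsBiInvMetric d ∧ SubgroupBounded d ∧ (∀ y ∈ Δ, d y 1 ≤ 1 / n) ∧
      ∀ x, (¬ ∃ L : List H, L.length < n ∧ (∀ y ∈ L, y ∈ Δ) ∧ x ∈ Subgroup.closure {y | y ∈ L}) →
        1 ≤ d x 1 := by
  have hn' : (0 : ℝ) < n := by exact_mod_cast hn
  refine ⟨fun x y => (kl Δ n (x * y⁻¹) : ℝ) / n, ⟨?_, ?_, ?_, ?_, ?_, ?_⟩, ?_, ?_, ?_⟩
  · intro x
    simp [kl_one]
  · intro x y h
    have h1 : (kl Δ n (x * y⁻¹) : ℝ) = 0 := by
      rcases div_eq_zero_iff.1 h with h | h
      · exact h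
      · exact absurd h hn'.ne'
    have h2 : kl Δ n (x * y⁻¹) = 0 := by exact_mod_cast h1
    exact mul_inv_eq_one.1 (eq_one_of_kl Δ n hn h2)
  · intro x y
    have : y * x⁻¹ = (x * y⁻¹)⁻¹ := by group
    show (kl Δ n (x * y⁻¹) : ℝ) / n = (kl Δ n (y * x⁻¹) : ℝ) / n
    rw [this, kl_inv]
  · intro x y z
    show (kl Δ n (x * z⁻¹) : ℝ) / n ≤ (kl Δ n (x * y⁻¹) : ℝ) / n + (kl Δ n (y * z⁻¹) : ℝ) / n
    rw [← add_div]
    apply div_le_div_of_nonneg_right _ hn'.le
    have h := kl_mul Δ n (x * y⁻¹) (y * z⁻¹)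
    have e : x * y⁻¹ * (y * z⁻¹) = x * z⁻¹ := by group
    rw [e] at h
    exact_mod_cast h
  · intro a x y
    show (kl Δ n (a * x * (a * y)⁻¹) : ℝ) / n = (kl Δ n (x * y⁻¹) : ℝ) / n
    have e : a * x * (a * y)⁻¹ = a * (x * y⁻¹) * a⁻¹ := by group
    rw [e, kl_conj Δ n hΔ]
  · intro a x y
    show (kl Δ n (x * a * (y * a)⁻¹) : ℝ) / n = (kl Δ n (x * y⁻¹) : ℝ) / n
    have e : x * a * (y * a)⁻¹ = x * y⁻¹ := by group
    rw [e]
  · intro S x hx
    simp only [inv_one, mul_one]
    rw [← Finset.sum_div]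
    apply div_le_div_of_nonneg_right _ hn'.le
    exact_mod_cast kl_gen Δ n S hx
  · intro y hy
    simp only [inv_one, mul_one]
    apply div_le_div_of_nonneg_right _ hn'.le
    have : kl Δ n y ≤ 1 := kl_le Δ n (Or.inr ⟨[y], by simp, by simpa using hy,
      Subgroup.subset_closure (by simp)⟩)
    exact_mod_cast this
  · intro x hx
    simp only [inv_one, mul_one]
    rw [le_div_iff₀ hn', one_mul]
    have : n ≤ kl Δ n x := by
      by_contra hlt
      push Not at hlt
      apply hx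
      rcases kl_spec Δ n x with h | ⟨L, h1, h2, h3⟩
      · omega
      · exact ⟨L, by omega, h2, h3⟩
    exact_mod_cast this

end

end Pool.Agent.Helper202WS
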