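import Pool.Agent.Helper202_WS.Key2

/-!
Coefficients, residual closure and the radical.
-/

set_option linter.unusedSectionVars false

open Filter Subgroup

namespace Pool.Agent.Helper202WS

universe u v w

theorem circ_torsion (x : Circ) : ∃ N : ℕ, 0 < N ∧ N • x = 0 := by
  obtain ⟨q, rfl⟩ := QuotientAddGroup.mk_surjective x
  refine ⟨q.den, q.den_pos, ?_⟩
  have h : (q.den • ((q : ℚ) : Circ)) = (((q.num : ℤ) • (1 : ℚ) : ℚ) : Circ) := by
    rw [← AddCircle.coe_nsmul]
    congr 1
    rw [nsmul_eq_mul, mul_comm, Rat.mul_den_eq_num]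
    simp
  show (q.den • ((q : ℚ) : Circ)) = 0
  rw [h, AddCircle.coe_eq_zero_iff]
  exact ⟨q.num, rfl⟩

/-- the hom from `ZMod m` to the circle with `1 ↦ x`, when it exists -/
theorem exists_psi (m : ℕ) (x : Circ) (h : m • x = 0) : ∃ f : ZMod m →+ Circ, f 1 = x := by
  refine ⟨ZMod.lift m ⟨zmultiplesHom Circ x, ?_⟩, ?_⟩
  · simpa using h
  · have := ZMod.lift_coe m (⟨zmultiplesHom Circ x, by simpa using h⟩ :
      {f : ℤ →+ Circ // f m = 0}) 1
    simpa using this

theorem exists_coeff {I : Type u} (𝓤 : Ultrafilter I) {B : Type w} (J : I → Finset B) (n : I → ℕ)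
    (hJ : ∀ b, ∀ᶠ i in (𝓤 : Filter I), b ∈ J i) (hn : ∀ k, ∀ᶠ i in (𝓤 : Filter I), k ≤ n i) :
    ∃ (A : I → Type) (_ : ∀ i, AddCommGroup (A i)) (_ : ∀ i, Finite (A i)) (a : ∀ i, B → A i),
      ∀ (S : Finset B) (χ : B → Circ), ∀ᶠ i in (𝓤 : Filter I),
        ∃ f : A i →+ Circ, ∀ b ∈ S, f (a i b) = χ b := by
  classical
  refine ⟨fun i => (Fin (J i).card → ZMod (n i).factorial), fun i => inferInstance, fun i => ?_,
    fun i b => if h : b ∈ J i then Pi.single ((J i).equivFin ⟨b, h⟩) 1 else 0, ?_⟩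
  · have : NeZero (n i).factorial := ⟨Nat.factorial_ne_zero _⟩
    infer_instance
  · intro S χ
    choose N hN0 hN using fun b : B => circ_torsion (χ b)
    have h1 : ∀ᶠ i in (𝓤 : Filter I), ∀ b ∈ S, b ∈ J i ∧ N b ≤ n i := by
      rw [Filter.eventually_all_finset]
      intro b _
      exact (hJ b).and (hn (N b))
    filter_upwards [h1] with i hi
    have hpsi : ∀ j : Fin (J i).card, ∃ f : ZMod (n i).factorial →+ Circ,
        ((((J i).equivFin.symm j : J i) : B) ∈ S → f 1 = χ ((J i).equivFin.symm j : J i)) := by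
      intro j
      by_cases hj : (((J i).equivFin.symm j : J i) : B) ∈ S
      · have h2 := (hi _ hj).2
        have h3 : N (((J i).equivFin.symm j : J i) : B) ∣ (n i).factorial :=
          Nat.dvd_factorial (hN0 _) h2
        obtain ⟨k, hk⟩ := h3
        obtain ⟨f, hf⟩ := exists_psi (n i).factorial (χ ((J i).equivFin.symm j : J i)) (by
          rw [hk, mul_comm, mul_smul, hN, smul_zero])
        exact ⟨f, fun _ => hf⟩
      · exact ⟨0, fun h => absurd h hj⟩
    choose ψ hψ using hpsi
    refine ⟨∑ j, (ψ j).comp (Pi.evalAddMonoidHom _ j), fun b hb => ?_⟩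
    have hbJ := (hi b hb).1
    rw [dif_pos hbJ, AddMonoidHom.finsetSum_apply]
    rw [Finset.sum_eq_single ((J i).equivFin ⟨b, hbJ⟩)]
    · rw [AddMonoidHom.comp_apply, Pi.evalAddMonoidHom_apply, Pi.single_eq_same, hψ]
      · simp
      · simpa using hb
    · intro j _ hj
      rw [AddMonoidHom.comp_apply, Pi.evalAddMonoidHom_apply, Pi.single_eq_of_ne hj, map_zero]
    · simp

/-! ### residual closure -/

theorem residual_aux {G : Type u} [Group G]
    (h : ∀ g : G, g ≠ 1 → ∃ (K : Type u) (_ : Group K) (_ : SubgroupWeaklySofic K) (f : G →* K),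
      f g ≠ 1) (F S : Finset G) : ∀ ε : ℝ, 0 < ε →
    ∃ (H : Type) (_ : Group H) (_ : Finite H) (d : H → H → ℝ) (φ : G → H),
      IsBiInvMetric d ∧ SubgroupBounded d ∧
      (∀ g ∈ F, ∀ h ∈ F, g * h ∈ F → d (φ (g * h)) (φ g * φ h) ≤ ε) ∧
      ∀ g ∈ S, g ∈ F → g ≠ 1 → 1 ≤ d (φ g) 1 := by
  classical
  induction S using Finset.induction_on with
  | empty =>
    intro ε hε
    refine ⟨Unit, inferInstance, inferInstance, fun _ _ => 0, fun _ => (),
      ⟨fun _ => rfl, fun _ _ _ => rfl, fun _ _ => rfl, fun _ _ _ => ?_, fun _ _ _ => rfl,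
        fun _ _ _ => rfl⟩, ?_, fun _ _ _ _ _ => hε.le, ?_⟩
    · simp
    · intro S x _
      simp
    · intro g hg
      simp at hg
  | insert a S ha ih =>
    intro ε hε
    by_cases ha1 : a = 1
    · obtain ⟨H, i1, i2, d, φ, h1, h2, h3, h4⟩ := ih ε hε
      refine ⟨H, i1, i2, d, φ, h1, h2, h3, fun g hg hgF hg1 => ?_⟩
      rcases Finset.mem_insert.1 hg with rfl | hg
      · exact absurd ha1 hg1
      · exact h4 g hg hgF hg1
    · obtain ⟨H, i1, i2, d, φ, h1, h2, h3, h4⟩ := ih (ε / 2) (by positivity)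
      obtain ⟨K, iK, hK, f, hf⟩ := h a ha1
      obtain ⟨H', i1', i2', d', φ', h1', h2', h3', h4'⟩ := hK (F.image f) (ε / 2) (by positivity)
      refine ⟨H × H', inferInstance, inferInstance, fun x y => d x.1 y.1 + d' x.2 y.2,
        fun g => (φ g, φ' (f g)), ⟨?_, ?_, ?_, ?_, ?_, ?_⟩, ?_, ?_, ?_⟩
      · intro x
        simp [h1.self, h1'.self]
      · intro x y hxy
        have e1 := h1.nonneg x.1 y.1
        have e2 := h1'.nonneg x.2 y.2
        exact Prod.ext (h1.eq_of _ _ (by linarith)) (h1'.eq_of _ _ (by linarith))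
      · intro x y
        simp [h1.symm x.1 y.1, h1'.symm x.2 y.2]
      · intro x y z
        have e1 := h1.tri x.1 y.1 z.1
        have e2 := h1'.tri x.2 y.2 z.2
        show d x.1 z.1 + d' x.2 z.2 ≤ (d x.1 y.1 + d' x.2 y.2) + (d y.1 z.1 + d' y.2 z.2)
        linarith
      · intro a x y
        simp [h1.left, h1'.left]
      · intro a x y
        simp [h1.right, h1'.right]
      · intro T x hx
        have e1 : x.1 ∈ Subgroup.closure (Prod.fst '' (T : Set (H × H'))) := by
          have := Subgroup.mem_map_of_mem (MonoidHom.fst H H') hx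
          rwa [MonoidHom.map_closure] at this
        have e2 : x.2 ∈ Subgroup.closure (Prod.snd '' (T : Set (H × H'))) := by
          have := Subgroup.mem_map_of_mem (MonoidHom.snd H H') hx
          rwa [MonoidHom.map_closure] at this
        have e3 := h1.family h2 T Prod.fst x.1 e1
        have e4 := h1'.family h2' T Prod.snd x.2 e2
        simp only [Prod.fst_one, Prod.snd_one]
        rw [Finset.sum_add_distrib]
        linarith
      · intro g hg k hk hgk
        have e1 := h3 g hg k hk hgk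
        have e2 := h3' (f g) (Finset.mem_image_of_mem f hg) (f k) (Finset.mem_image_of_mem f hk)
          (by rw [← map_mul]; exact Finset.mem_image_of_mem f hgk)
        simp only [Prod.fst_mul, Prod.snd_mul, map_mul]
        linarith
      · intro g hg hgF hg1
        have e1 := h1.nonneg (φ g) 1
        have e2 := h1'.nonneg (φ' (f g)) 1
        simp only [Prod.fst_one, Prod.snd_one]
        rcases Finset.mem_insert.1 hg with rfl | hg
        · have := h4' (f g) (Finset.mem_image_of_mem f hgF) hf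
          linarith
        · have := h4 g hg hgF hg1
          linarith

theorem residual {G : Type u} [Group G]
    (h : ∀ g : G, g ≠ 1 → ∃ (K : Type u) (_ : Group K) (_ : SubgroupWeaklySofic K) (f : G →* K),
      f g ≠ 1) : SubgroupWeaklySofic G := by
  intro F ε hε
  obtain ⟨H, i1, i2, d, φ, h1, h2, h3, h4⟩ := residual_aux h F F ε hε
  exact ⟨H, i1, i2, d, φ, h1, h2, h3, fun g hg hg1 => h4 g hg hg hg1⟩

/-- the radical -/
def rad (G : Type u) [Group G] : Subgroup G where
  carrier := {g | ∀ (K : Type u) (_ : Group K), SubgroupWeaklySofic K → ∀ f : G →* K, f g = 1}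
  one_mem' := by
    intro K _ _ f
    exact map_one f
  mul_mem' := by
    intro a b ha hb K iK hK f
    rw [map_mul, ha K iK hK f, hb K iK hK f, one_mul]
  inv_mem' := by
    intro a ha K iK hK f
    rw [map_inv, ha K iK hK f, inv_one]

theorem mem_rad {G : Type u} [Group G] {g : G} (hg : g ∈ rad G) {K : Type u} [iK : Group K]
    (hK : SubgroupWeaklySofic K) (f : G →* K) : f g = 1 := hg K iK hK f

instance {G : Type u} [Group G] : (rad G).Normal where
  conj_mem := by
    intro a ha c K iK hK f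
    rw [map_mul, map_mul, map_inv, ha K iK hK f]
    simp

theorem map_rad {G : Type u} [Group G] {G' : Type u} [Group G'] (f : G →* G') {g : G}
    (hg : g ∈ rad G) : f g ∈ rad G' := by
  intro K iK hK k
  exact hg K iK hK (k.comp f)

theorem quot_rad (G : Type u) [Group G] : SubgroupWeaklySofic (G ⧸ rad G) := by
  apply residual
  intro x hx
  obtain ⟨g, rfl⟩ := QuotientGroup.mk_surjective x
  have hg : g ∉ rad G := fun h => hx ((QuotientGroup.eq_one_iff g).2 h)
  have hg' : ¬ ∀ (K : Type u) (_ : Group K), SubgroupWeaklySofic K → ∀ f : G →* K, f g = 1 := hg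
  push Not at hg'
  obtain ⟨K, iK, hK, f, hf⟩ := hg'
  exact ⟨K, iK, hK, QuotientGroup.lift (rad G) f (fun a ha => ha K iK hK f), hf⟩

theorem of_rad {G : Type u} [Group G] (h : ∀ g ∈ rad G, g = 1) : SubgroupWeaklySofic G := by
  apply residual
  intro g hg
  have hg' : ¬ ∀ (K : Type u) (_ : Group K), SubgroupWeaklySofic K → ∀ f : G →* K, f g = 1 :=
    fun h' => hg (h g h')
  push Not at hg'
  obtain ⟨K, iK, hK, f, hf⟩ := hg'
  exact ⟨K, iK, hK, f, hf⟩

/-- Derivations into modules over the quotient by the radical vanish on the radical. -/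
theorem deriv_rad {G : Type u} [Group G] {Q : Type u} [Group Q] (hQ : SubgroupWeaklySofic Q)
    (π : G →* Q) {B : Type u} [AddCommGroup B] (ρ : G →* AddMonoid.End B)
    (hρ : ∀ g, π g = 1 → ρ g = 1) (D : G → B) (hD : ∀ g h, D (g * h) = D g + ρ g (D h))
    {g : G} (hg : g ∈ rad G) : D g = 0 := by
  classical
  obtain ⟨I, 𝓤, H, iG, iF, M, p, J, n, hN, hM, hp, hp1, hJ, hn⟩ := to_ultra hQ B
  have : ∀ i, Fintype (H i) := fun i => Fintype.ofFinite _
  obtain ⟨A, iA, iFA, a, hsep⟩ := exists_coeff 𝓤 J n hJ hn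
  have hρ' : ∀ g, p (π g) ∈ M → ρ g = 1 := by
    intro g hg
    apply hρ
    by_contra h
    exact hp1 _ h hg
  have hp' : ∀ g h : G, p (π g) * p (π h) * (p (π (g * h)))⁻¹ ∈ M := by
    intro g h
    rw [map_mul]
    exact hp _ _
  let M' := MM 𝓤 a M (fun g : G => p (π g)) ρ
  have hN' : M'.Normal := MM_normal 𝓤 a M hN _ ρ
  have hM' : GenClosed 𝓤 M' := MM_closed 𝓤 a M _ ρ
  have hK : SubgroupWeaklySofic ((∀ i, SD (H i) (A i)) ⧸ M') := by
    refine of_ultra 𝓤 (fun i => inferInstance) M' hN' hM' Quotient.out ?_ ?_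
    · intro x y
      rw [← QuotientGroup.eq_one_iff (N := M')]
      simp only [QuotientGroup.mk_mul, QuotientGroup.mk_inv, QuotientGroup.out_eq']
      exact mul_inv_cancel _
    · intro x hx hmem
      apply hx
      rw [← QuotientGroup.eq_one_iff (N := M'), QuotientGroup.out_eq'] at hmem
      exact hmem
  let f : G →* (∀ i, SD (H i) (A i)) ⧸ M' := MonoidHom.mk'
    (fun g => ((pp a (fun g : G => p (π g)) D g : ∀ i, SD (H i) (A i)) :
      (∀ i, SD (H i) (A i)) ⧸ M')) (by
      intro g h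
      have h1 := (QuotientGroup.eq_one_iff (N := M') _).2
        (pp_defect 𝓤 a M (fun g : G => p (π g)) hp' ρ D hD g h)
      rw [QuotientGroup.mk_mul, QuotientGroup.mk_mul, QuotientGroup.mk_inv, mul_inv_eq_one] at h1
      exact h1.symm)
  have h1 : f g = 1 := mem_rad hg hK f
  have h2 : pp a (fun g : G => p (π g)) D g ∈ M' := (QuotientGroup.eq_one_iff (N := M') _).1 h1
  exact pp_sep 𝓤 a M hN hM hsep (fun g : G => p (π g)) hp' ρ hρ' D g h2

end Pool.Agent.Helper202WS
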