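import Pool.Agent.Helper202_WS.Metric

/-!
Passing between the finite level and ultraproducts.
-/

open Filter Subgroup

namespace Pool.Agent.Helper202WS

universe u v

section

variable {I : Type u} {H : I → Type} [∀ i, Group (H i)]

/-- the subgroup generated by the values of `T` at `i` -/
def gen (T : Set (∀ i, H i)) (i : I) : Subgroup (H i) :=
  Subgroup.closure ((fun t : ∀ i, H i => t i) '' T)

theorem gen_mono {T T' : Set (∀ i, H i)} (h : T ⊆ T') (i : I) : gen T i ≤ gen T' i :=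
  Subgroup.closure_mono (Set.image_mono h)

theorem mem_gen {T : Set (∀ i, H i)} {t : ∀ i, H i} (h : t ∈ T) (i : I) : t i ∈ gen T i :=
  Subgroup.subset_closure ⟨t, h, rfl⟩

/-- `M` is closed under generation, uniformly along the ultrafilter. -/
def GenClosed (𝓤 : Ultrafilter I) (M : Subgroup (∀ i, H i)) : Prop :=
  ∀ T : Set (∀ i, H i), T.Finite → T ⊆ M → ∀ x : ∀ i, H i,
    (∀ᶠ i in (𝓤 : Filter I), x i ∈ gen T i) → x ∈ M

theorem of_ultra {G : Type v} [Group G] (𝓤 : Ultrafilter I) (hfin : ∀ i, Finite (H i))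
    (M : Subgroup (∀ i, H i)) (hN : M.Normal) (hM : GenClosed 𝓤 M) (p : G → ∀ i, H i)
    (hp : ∀ g h, p g * p h * (p (g * h))⁻¹ ∈ M) (hp1 : ∀ g, g ≠ 1 → p g ∉ M) :
    SubgroupWeaklySofic G := by
  classical
  intro F ε hε
  obtain ⟨n, hn⟩ := exists_nat_gt (1 / ε)
  have hn0 : (0 : ℝ) < n := lt_trans (by positivity) hn
  have hn1 : 0 < n := by exact_mod_cast hn0
  have hnε : 1 / (n : ℝ) ≤ ε := by
    rw [div_le_iff₀ hn0]
    rw [div_lt_iff₀ hε] at hn
    linarith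
  let Δ : ∀ i, Set (H i) := fun i =>
    {y | ∃ a ∈ F, ∃ b ∈ F, ∃ c : H i, y = c * (p a i * p b i * (p (a * b) i)⁻¹) * c⁻¹}
  have hΔ : ∀ i, ∀ y ∈ Δ i, ∀ c, c * y * c⁻¹ ∈ Δ i := by
    rintro i _ ⟨a, ha, b, hb, c, rfl⟩ c'
    exact ⟨a, ha, b, hb, c' * c, by group⟩
  -- elements with values in `Δ` lie in `M`
  have hΔM : ∀ t : ∀ i, H i, (∀ᶠ i in (𝓤 : Filter I), t i ∈ Δ i ∨ t i = 1) → t ∈ M := by
    intro t ht
    have hch : ∀ i, ∃ c : H i, (t i ∈ Δ i) →
        ∃ a ∈ F, ∃ b ∈ F, t i = c * (p a i * p b i * (p (a * b) i)⁻¹) * c⁻¹ := by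
      intro i
      by_cases h : t i ∈ Δ i
      · obtain ⟨a, ha, b, hb, c, hc⟩ := h
        exact ⟨c, fun _ => ⟨a, ha, b, hb, hc⟩⟩
      · exact ⟨1, fun h' => absurd h' h⟩
    choose c hc using hch
    refine hM ((fun ab : G × G => c * (p ab.1 * p ab.2 * (p (ab.1 * ab.2))⁻¹) * c⁻¹) ''
      ((F ×ˢ F : Finset (G × G)) : Set (G × G))) ((Finset.finite_toSet _).image _) ?_ t ?_
    · rintro _ ⟨ab, _, rfl⟩
      exact hN.conj_mem _ (hp ab.1 ab.2) c
    · filter_upwards [ht] with i hi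
      rcases hi with hi | hi
      · obtain ⟨a, ha, b, hb, hab⟩ := hc i hi
        rw [hab]
        exact Subgroup.subset_closure ⟨_, ⟨(a, b), by simp [ha, hb], rfl⟩, rfl⟩
      · rw [hi]
        exact one_mem _
  have hbad : ∀ g ∈ F, g ≠ 1 → ∀ᶠ i in (𝓤 : Filter I), ¬ ∃ L : List (H i),
      L.length < n ∧ (∀ y ∈ L, y ∈ Δ i) ∧ p g i ∈ Subgroup.closure {y | y ∈ L} := by
    intro g hg hg1
    by_contra hcon
    rw [Ultrafilter.eventually_not] at hcon
    push Not at hcon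
    have hch : ∀ i, ∃ L : List (H i), (∃ L : List (H i),
      L.length < n ∧ (∀ y ∈ L, y ∈ Δ i) ∧ p g i ∈ Subgroup.closure {y | y ∈ L}) →
      (L.length < n ∧ (∀ y ∈ L, y ∈ Δ i) ∧ p g i ∈ Subgroup.closure {y | y ∈ L}) := by
      intro i
      by_cases h : ∃ L : List (H i),
        L.length < n ∧ (∀ y ∈ L, y ∈ Δ i) ∧ p g i ∈ Subgroup.closure {y | y ∈ L}
      · obtain ⟨L, hL⟩ := h
        exact ⟨L, fun _ => hL⟩
      · exact ⟨[], fun h' => absurd h' h⟩
    choose L hL using hch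
    apply hp1 g hg1
    refine hM ((fun k : ℕ => (fun i => (L i).getD k 1)) '' (Finset.range n : Set ℕ))
      ((Finset.finite_toSet _).image _) ?_ (p g) ?_
    · rintro _ ⟨k, _, rfl⟩
      apply hΔM
      filter_upwards [hcon] with i hi
      obtain ⟨_, h2, _⟩ := hL i hi
      by_cases hk : k < (L i).length
      · left
        have : (L i).getD k 1 = (L i)[k] := by
          rw [List.getD_eq_getElem _ _ hk]
        show (L i).getD k 1 ∈ Δ i
        rw [this]
        exact h2 _ (List.getElem_mem hk)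
      · right
        show (L i).getD k 1 = 1
        rw [List.getD_eq_default _ _ (not_lt.1 hk)]
    · filter_upwards [hcon] with i hi
      obtain ⟨h1, _, h3⟩ := hL i hi
      have h4 : Subgroup.closure {y | y ∈ L i} ≤
          gen ((fun k : ℕ => (fun i => (L i).getD k 1)) '' (Finset.range n : Set ℕ)) i := by
        rw [Subgroup.closure_le]
        intro y hy
        obtain ⟨k, hk, rfl⟩ := List.getElem_of_mem hy
        have h5 : (L i)[k] = (fun i => (L i).getD k 1 : ∀ i, H i) i := by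
          show (L i)[k] = (L i).getD k 1
          rw [List.getD_eq_getElem _ _ hk]
        rw [h5]
        exact Subgroup.subset_closure ⟨_, ⟨k, by simp; omega, rfl⟩, rfl⟩
      exact h4 h3
  have hall : ∀ᶠ i in (𝓤 : Filter I), ∀ g ∈ F, g ≠ 1 → ¬ ∃ L : List (H i),
      L.length < n ∧ (∀ y ∈ L, y ∈ Δ i) ∧ p g i ∈ Subgroup.closure {y | y ∈ L} := by
    rw [Filter.eventually_all_finset]
    intro g hg
    by_cases h1 : g = 1
    · exact Filter.Eventually.of_forall (fun i h => absurd h1 h)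
    · filter_upwards [hbad g hg h1] with i hi _
      exact hi
  obtain ⟨i, hi⟩ := hall.exists
  obtain ⟨d, hd1, hd2, hd3, hd4⟩ := exists_metric (Δ i) n (hΔ i) hn1
  refine ⟨H i, inferInstance, hfin i, d, fun g => p g i, hd1, hd2, ?_, ?_⟩
  · intro g hg h hh _
    rw [hd1.symm, ← hd1.mul_inv]
    refine (hd3 _ ?_).trans hnε
    exact ⟨g, hg, h, hh, 1, by group⟩
  · intro g hg hg1
    exact hd4 _ (hi g hg hg1)

end

theorem to_ultra {Q : Type u} [Group Q] (hQ : SubgroupWeaklySofic Q) (E : Type u) :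
    ∃ (I : Type u) (𝓤 : Ultrafilter I) (H : I → Type) (_ : ∀ i, Group (H i))
      (_ : ∀ i, Finite (H i)) (M : Subgroup (∀ i, H i)) (p : Q → ∀ i, H i)
      (J : I → Finset E) (n : I → ℕ),
      M.Normal ∧ GenClosed 𝓤 M ∧ (∀ g h, p g * p h * (p (g * h))⁻¹ ∈ M) ∧
      (∀ g, g ≠ 1 → p g ∉ M) ∧ (∀ e, ∀ᶠ i in (𝓤 : Filter I), e ∈ J i) ∧
      (∀ k, ∀ᶠ i in (𝓤 : Filter I), k ≤ n i) := by
  classical
  let I : Type u := Finset Q × ℕ × Finset E
  have hch : ∀ i : I, ∃ (H : Type) (_ : Group H) (_ : Finite H) (d : H → H → ℝ) (φ : Q → H),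
      IsBiInvMetric d ∧ SubgroupBounded d ∧
      (∀ g ∈ i.1, ∀ h ∈ i.1, g * h ∈ i.1 → d (φ (g * h)) (φ g * φ h) ≤ 1 / ((i.2.1 : ℝ) + 1)) ∧
      ∀ g ∈ i.1, g ≠ 1 → 1 ≤ d (φ g) 1 := fun i => hQ i.1 _ (by positivity)
  choose H iG iF d φ h1 h2 h3 h4 using hch
  let 𝓤 : Ultrafilter I := Ultrafilter.of atTop
  have hle : (𝓤 : Filter I) ≤ atTop := Ultrafilter.of_le _
  have ev : ∀ (P : I → Prop) (i0 : I), (∀ i, i0 ≤ i → P i) → ∀ᶠ i in (𝓤 : Filter I), P i := by
    intro P i0 h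
    exact hle (Filter.eventually_atTop.2 ⟨i0, h⟩)
  have evQ : ∀ q : Q, ∀ᶠ i in (𝓤 : Filter I), q ∈ i.1 := by
    intro q
    exact ev _ ({q}, 0, ∅) (fun i hi => hi.1 (Finset.mem_singleton_self q))
  have evE : ∀ e : E, ∀ᶠ i in (𝓤 : Filter I), e ∈ i.2.2 := by
    intro q
    exact ev _ (∅, 0, {q}) (fun i hi => hi.2.2 (Finset.mem_singleton_self q))
  have evn : ∀ k : ℕ, ∀ᶠ i in (𝓤 : Filter I), k ≤ i.2.1 := by
    intro k
    exact ev _ (∅, k, ∅) (fun i hi => hi.2.1)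
  let M : Subgroup (∀ i, H i) :=
    { carrier := {x | ∀ ε : ℝ, 0 < ε → ∀ᶠ i in (𝓤 : Filter I), d i (x i) 1 < ε}
      one_mem' := by
        intro ε hε
        refine Filter.Eventually.of_forall (fun i => ?_)
        show d i 1 1 < ε
        rw [(h1 i).self]
        exact hε
      mul_mem' := by
        intro x y hx hy ε hε
        filter_upwards [hx (ε / 2) (by positivity), hy (ε / 2) (by positivity)] with i hi1 hi2
        have := (h1 i).mul_le (x i) (y i)
        show d i (x i * y i) 1 < ε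
        linarith
      inv_mem' := by
        intro x hx ε hε
        filter_upwards [hx ε hε] with i hi
        show d i (x i)⁻¹ 1 < ε
        rw [(h1 i).inv]
        exact hi }
  have hMdef : ∀ x : ∀ i, H i, x ∈ M ↔ ∀ ε : ℝ, 0 < ε →
      ∀ᶠ i in (𝓤 : Filter I), d i (x i) 1 < ε := fun x => Iff.rfl
  refine ⟨I, 𝓤, H, iG, iF, M, fun q i => φ i q, fun i => i.2.2, fun i => i.2.1,
    ⟨?_⟩, ?_, ?_, ?_, evE, evn⟩
  · intro x hx y
    rw [hMdef] at hx ⊢
    intro ε hε
    filter_upwards [hx ε hε] with i hi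
    show d i (y i * x i * (y i)⁻¹) 1 < ε
    rw [(h1 i).conj]
    exact hi
  · intro T hT hTM x hx
    rw [hMdef]
    intro ε hε
    have hT' : ∀ᶠ i in (𝓤 : Filter I), ∀ t ∈ hT.toFinset,
        d i (t i) 1 < ε / ((hT.toFinset.card : ℝ) + 1) := by
      rw [Filter.eventually_all_finset]
      intro t ht
      exact (hMdef t).1 (hTM (hT.mem_toFinset.1 ht)) _ (by positivity)
    filter_upwards [hx, hT'] with i hi1 hi2
    have h5 : x i ∈ Subgroup.closure ((fun t : ∀ i, H i => t i) '' (hT.toFinset : Set _)) := by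
      rwa [hT.coe_toFinset]
    have h6 := (h1 i).family (h2 i) hT.toFinset (fun t => t i) (x i) h5
    have h7 : ∑ t ∈ hT.toFinset, d i (t i) 1 ≤
        ∑ t ∈ hT.toFinset, ε / ((hT.toFinset.card : ℝ) + 1) :=
      Finset.sum_le_sum (fun t ht => (hi2 t ht).le)
    rw [Finset.sum_const, nsmul_eq_mul] at h7
    have h8 : (hT.toFinset.card : ℝ) * (ε / ((hT.toFinset.card : ℝ) + 1)) < ε := by
      rw [← mul_div_assoc, div_lt_iff₀ (by positivity)]
      nlinarith
    linarith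
  · intro g h
    rw [hMdef]
    intro ε hε
    obtain ⟨k, hk⟩ := exists_nat_gt (1 / ε)
    filter_upwards [evQ g, evQ h, evQ (g * h), evn k] with i hi1 hi2 hi3 hi4
    show d i (φ i g * φ i h * (φ i (g * h))⁻¹) 1 < ε
    rw [(h1 i).mul_inv, (h1 i).symm]
    refine (h3 i g hi1 h hi2 hi3).trans_lt ?_
    rw [div_lt_iff₀ (by positivity)]
    rw [div_lt_iff₀ hε] at hk
    have : (k : ℝ) ≤ i.2.1 := by exact_mod_cast hi4
    nlinarith
  · intro g hg hmem
    rw [hMdef] at hmem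
    obtain ⟨i, hi1, hi2⟩ := ((hmem 1 one_pos).and (evQ g)).exists
    have := h4 i g hi2 hg
    have hi1' : d i (φ i g) 1 < 1 := hi1
    linarith

end Pool.Agent.Helper202WS
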